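import Mathlib
import Pool.Agent.N576.MK.C5

set_option autoImplicit false

/-!
# Statements of the project MX (helper576): the exceptions of the uniqueness conjecture are `o(log N)`
-/

namespace Pool.Agent.N576.MX

open Pool.Agent.H499R2 Pool.Agent.TH880.MK Pool.Agent.N576.MK

noncomputable section

/-- the node after `m` steps `c` from `g` -/
def rn (g : List Bool) (c : Bool) (m : ℕ) : List Bool := g ++ List.replicate m c

/-- the word which leaves the run `rn g c` after `m` steps, with suffix `s` -/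
def ofr (g : List Bool) (c : Bool) (m : ℕ) (s : List Bool) : List Bool := rn g c m ++ (!c) :: s

/-- the value of the region which stays fixed along the run -/
def piv (g : List Bool) (c : Bool) : ℤ := if c then (desc root g).a else (desc root g).b

/-- the size of the region which stays fixed along the run -/
def pvs (g : List Bool) (c : Bool) : ℕ := if c then (desc root g).p else (desc root g).q

/-- the value of the moving region after `m` steps -/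
def wv (g : List Bool) (c : Bool) (m : ℕ) : ℤ :=
  if c then (desc root (rn g c m)).b else (desc root (rn g c m)).a

/-- the eigenvalue of a region of value `u` -/
def lam (u : ℤ) : ℝ := (3 * u + Real.sqrt (9 * (u : ℝ) ^ 2 - 4)) / 2

/-- the number of later neighbours in the decomposition of the suffix -/
def jj (c : Bool) (s : List Bool) : ℕ := if c then (pt s).1 else (pt s).2

/-- the values along a run -/
def RUNREP : Prop := ∀ (g : List Bool) (c : Bool), ∃ x y : ℝ, 0 < x ∧ 0 < y ∧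
  x * y = 9 * (piv g c : ℝ) ^ 2 / (9 * (piv g c : ℝ) ^ 2 - 4) ∧
  (∀ m : ℕ, (wv g c m : ℝ) = (x * lam (piv g c) ^ m + y * (lam (piv g c))⁻¹ ^ m) / 3) ∧
  (∀ m : ℕ, ((desc root (rn g c m)).c : ℝ) =
    (x * lam (piv g c) ^ (m + 1) + y * (lam (piv g c))⁻¹ ^ (m + 1)) / 3) ∧
  ∃ (k : ℕ) (A B : ℤ), 1 ≤ A ∧ A ≤ piv g c ∧ 1 ≤ B ∧ B ≤ piv g c ∧
    A ^ 2 + B ^ 2 + (piv g c) ^ 2 = 3 * piv g c * A * B ∧
    IsCoprime A (piv g c) ∧ IsCoprime B (piv g c) ∧ IsCoprime A B ∧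
    (A : ℝ) = (x * (lam (piv g c))⁻¹ ^ (k + 1) + y * lam (piv g c) ^ (k + 1)) / 3 ∧
    (B : ℝ) = (x * (lam (piv g c))⁻¹ ^ k + y * lam (piv g c) ^ k) / 3

/-- the values of the words leaving a run with a given suffix -/
def EPREP : Prop := ∀ (g : List Bool) (c : Bool) (x y : ℝ),
  (∀ m : ℕ, (wv g c m : ℝ) = (x * lam (piv g c) ^ m + y * (lam (piv g c))⁻¹ ^ m) / 3) →
  (∀ m : ℕ, ((desc root (rn g c m)).c : ℝ) =
    (x * lam (piv g c) ^ (m + 1) + y * (lam (piv g c))⁻¹ ^ (m + 1)) / 3) →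
  ∀ s : List Bool, ∃ P : Polynomial ℝ, P.natDegree ≤ 2 * sz s ∧
    P.coeff (2 * sz s) = x ^ (sz s) * lam (piv g c) ^ (jj c s) / 3 ∧
    P.coeff 0 = y ^ (sz s) * (lam (piv g c))⁻¹ ^ (jj c s) / 3 ∧
    ∀ m : ℕ, ((desc root (ofr g c m s)).c : ℝ) * (lam (piv g c) ^ m) ^ (sz s) =
      P.eval (lam (piv g c) ^ m)

/-- a word is determined by its unordered triple -/
def UNIQ : Prop := ∀ l l' : List Bool, (desc root l).c = (desc root l').c →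
  (((desc root l).a = (desc root l').a ∧ (desc root l).b = (desc root l').b) ∨
    ((desc root l).a = (desc root l').b ∧ (desc root l).b = (desc root l').a)) → l = l'

/-- two runs with fixed suffixes have few equal values along a line -/
def CORE : Prop := ∀ (g g' : List Bool) (c c' : Bool) (s s' : List Bool) (T : Finset (ℕ × ℕ)),
  (∀ x ∈ T, FF (ofr g c x.1 s) = FF (ofr g' c' x.2 s') ∧ ofr g c x.1 s ≠ ofr g' c' x.2 s') →
  (∀ x ∈ T, ∀ y ∈ T, x.1 < y.1 → x.2 < y.2) → (∀ x ∈ T, ∀ y ∈ T, x.1 = y.1 → x = y) →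
  (∀ x ∈ T, ∀ y ∈ T, ∀ z ∈ T, ((y.1 : ℤ) - x.1) * ((z.2 : ℤ) - x.2) = ((z.1 : ℤ) - x.1) * ((y.2 : ℤ) - x.2)) →
  T.card ≤ 2 * sz s + 2 * sz s' + 2

/-- three equal values with fixed suffixes lie on a line -/
def AFF : Prop := ∀ (H : ℕ) (g g' : List Bool) (c c' : Bool) (s s' : List Bool) (m1 m2 m3 t1 t2 t3 : ℕ),
  1 ≤ H → m1 < m2 → m2 < m3 → t1 < t2 → t2 < t3 →
  FF (ofr g c m1 s) = FF (ofr g' c' t1 s') → FF (ofr g c m2 s) = FF (ofr g' c' t2 s') →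
  FF (ofr g c m3 s) = FF (ofr g' c' t3 s') →
  sz (ofr g c m3 s) ≤ H → sz (ofr g' c' t3 s') ≤ H →
  (10 : ℝ) ^ 6 * H ^ 3 ≤ Real.exp (FF (rn g c m1)) → (10 : ℝ) ^ 6 * H ^ 3 ≤ Real.exp (FF (rn g' c' t1)) →
  ((m2 : ℤ) - m1) * ((t3 : ℤ) - t1) = ((m3 : ℤ) - m1) * ((t2 : ℤ) - t1)

/-- many prefixes of a word of comparable sizes: a positive proportion lies on one run -/
def RUNX : Prop := ∀ (P : List Bool) (A : Finset (List Bool)) (s k : ℕ), 1 ≤ s →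
  (∀ N ∈ A, (∃ b, N ++ [b] <+: P) ∧ s ≤ sz N ∧ sz N < 2 ^ k * s) →
  ∃ (g : List Bool) (c : Bool) (A' : Finset (List Bool)), A' ⊆ A ∧ A.card ≤ (2 * k + 3) * A'.card ∧
    ∀ N ∈ A', ∃ t, N = rn g c t ∧ rn g c (t + 1) <+: P

/-- light words: the lengths of the runs are bounded in terms of the size of the fixed region -/
def Lt (τ : ℕ → ℕ) (l : List Bool) : Prop := ∀ (g : List Bool) (c : Bool) (m : ℕ), rn g c m <+: l → m ≤ τ (pvs g c)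

def LIGHTLEN : Prop := ∀ (τ : ℕ → ℕ) (k l : List Bool) (n0 : ℕ), Lt τ l → k <+: l →
  (∀ r, mm k ≤ r → τ r ≤ n0) → l.length ≤ k.length + (2 * Nat.log 2 (sz l) + 2) * n0

/-- the class of light words -/
def LIGHTCLS : Prop := ∀ (H S0 : ℕ) (τ : ℕ → ℕ) (X0 X1 Y : ℕ), 2 ≤ H → H ≤ S0 →
  (∀ r, 1 ≤ r → τ r ≤ X0 ∧ τ r * r ≤ X1 + Y * r) →
  Cls H S0 (Lt τ) (fun k => 4 * ((((2 * Nat.log 2 (4 * S0) + 2) * (X1 / mm k + Y) : ℕ) : ℝ) + 1))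
    (4 * ((2 * Nat.log 2 (4 * S0) + 2 : ℕ) * X1 * (4 * Real.log S0) +
      (((2 * Nat.log 2 (4 * S0) + 2) * Y + 1 : ℕ) : ℝ) * (((2 * Nat.log 2 (4 * S0) + 2) * X0 + 1 : ℕ) : ℝ)))

/-- exceptional words of size at most `H` -/
def Exc (H : ℕ) (l : List Bool) : Prop := sz l ≤ H ∧ ∃ l', sz l' ≤ H ∧ l' ≠ l ∧ FF l' = FF l

/-- few positions on a run -/
def PR : Prop := ∀ ε : ℝ, 0 < ε → ∃ C : ℝ, 0 < C ∧ ∀ (H : ℕ) (g : List Bool) (c : Bool) (M : ℕ) (S : Finset ℕ),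
  2 ≤ H → 1 ≤ M → (∀ m ∈ S, M ≤ m ∧ m < 2 * M ∧ ∃ l, rn g c m ++ [!c] <+: l ∧ Exc H l) →
  (S.card : ℝ) ≤ C * (H : ℝ) ^ ε * ((H : ℝ) / sz (rn g c M)) ^ 5

/-- `g` is the start of a run of steps `c` -/
def Tst (g : List Bool) (c : Bool) : Prop := ∀ h, g ≠ h ++ [c]

/-- few starts of runs with exceptional words behind them -/
def RSTART : Prop := ∀ ε : ℝ, 0 < ε → ∃ C : ℝ, 0 < C ∧ ∀ (H R : ℕ) (G : Finset (List Bool × Bool)), 2 ≤ H → 1 ≤ R →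
  (∀ x ∈ G, Tst x.1 x.2 ∧ R < sz (x.1 ++ [x.2]) ∧ sz (x.1 ++ [x.2]) ≤ 2 * R ∧
    ∃ l, x.1 ++ [x.2] <+: l ∧ Exc H l) → (G.card : ℝ) ≤ C * R * (H : ℝ) ^ ε

/-- the bound for the lengths of the runs -/
def tau (H : ℕ) (r : ℕ) : ℕ :=
  if (r : ℝ) ≤ (H : ℝ) ^ (8 / 100 : ℝ) then ⌊(H : ℝ) ^ (91 / 100 : ℝ) / r⌋₊
  else if (r : ℝ) ≤ (H : ℝ) ^ (92 / 100 : ℝ) then ⌊(H : ℝ) ^ (99 / 100 : ℝ) / r⌋₊
  else ⌊(H : ℝ) ^ (8 / 100 : ℝ)⌋₊

def LIGHT : Prop := ∃ C : ℝ, 0 < C ∧ ∀ (H : ℕ) (Z : Finset (List Bool)), 1 ≤ H →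
  (∀ l ∈ Z, Exc H l ∧ Lt (tau H) l) → (Z.card : ℝ) ≤ C * (H : ℝ) ^ (199 / 200 : ℝ)

def HEAVY : Prop := ∃ C : ℝ, 0 < C ∧ ∀ (H : ℕ) (Z : Finset (List Bool)), 1 ≤ H →
  (∀ l ∈ Z, Exc H l ∧ ¬ Lt (tau H) l) → (Z.card : ℝ) ≤ C * (H : ℝ) ^ (199 / 200 : ℝ)

def MAIN : Prop := ∃ C : ℝ, 0 < C ∧ ∀ (H : ℕ) (Z : Finset (List Bool)), 1 ≤ H →
  (∀ l ∈ Z, Exc H l) → (Z.card : ℝ) ≤ C * (H : ℝ) ^ (199 / 200 : ℝ)

end

end Pool.Agent.N576.MX
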