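import Mathlib
import Pool.Agent.N576.MX.Defs

set_option autoImplicit false

/-!
# Families of exceptional words hanging off a run: levels of the partners
-/

namespace Pool.Agent.N576.MX

open Pool.Agent.H499R2 Pool.Agent.TH880.MK Pool.Agent.N576.MK

noncomputable section

lemma rn_succ (g : List Bool) (c : Bool) (m : ℕ) : rn g c (m + 1) = rn g c m ++ [c] := by
  unfold rn
  rw [List.replicate_succ', List.append_assoc]

lemma rn_prefix (g : List Bool) (c : Bool) {m n : ℕ} (h : m ≤ n) : rn g c m <+: rn g c n := by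
  induction n with
  | zero => rw [Nat.le_zero.mp h]
  | succ n ih =>
    rcases Nat.lt_or_eq_of_le h with h1 | h1
    · rw [rn_succ]; exact (ih (by omega)).trans (List.prefix_append _ _)
    · rw [h1]

lemma rn_len (g : List Bool) (c : Bool) (m : ℕ) : (rn g c m).length = g.length + m := by
  unfold rn; simp

lemma rn_lt (g : List Bool) (c : Bool) {m n : ℕ} (h : m < n) : rn g c m ++ [c] <+: rn g c n := by
  rw [← rn_succ]; exact rn_prefix g c h

/-- levels along a run -/
lemma lev (g : List Bool) (c : Bool) {m n : ℕ} (h : m ≤ n) :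
    FF (rn g c m) + ((n : ℝ) - m) / 4 ≤ FF (rn g c n) := by
  have h1 := FF_len (rn_prefix g c h)
  rw [rn_len, rn_len] at h1
  push_cast at h1
  linarith

lemma lev_le (g : List Bool) (c : Bool) {m n : ℕ} (h : m ≤ n) : FF (rn g c m) ≤ FF (rn g c n) := by
  have h1 := lev g c h
  have h2 : (m : ℝ) ≤ n := by exact_mod_cast h
  linarith

/-- few positions in a window of levels -/
lemma run_window (g : List Bool) (c : Bool) (T : Finset ℕ) {x r : ℝ} (hr : 0 ≤ r)
    (h : ∀ m ∈ T, x ≤ FF (rn g c m) ∧ FF (rn g c m) ≤ x + r) : (T.card : ℝ) ≤ 4 * r + 1 := by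
  rcases T.eq_empty_or_nonempty with h0 | hne
  · rw [h0]; simp; positivity
  obtain ⟨n0, hn0, hmin⟩ := Finset.exists_min_image T id hne
  have hsub : T ⊆ Finset.Icc n0 (n0 + ⌊4 * r⌋₊) := by
    intro m hm
    have h1 := hmin m hm
    simp only [id] at h1
    rw [Finset.mem_Icc]
    refine ⟨h1, ?_⟩
    have h2 := lev g c h1
    have h3 := (h m hm).2
    have h4 := (h n0 hn0).1
    have h5 : ((m - n0 : ℕ) : ℝ) ≤ 4 * r := by
      rw [Nat.cast_sub h1]; linarith
    have := Nat.le_floor h5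
    omega
  have h1 := Finset.card_le_card hsub
  rw [Nat.card_Icc] at h1
  have h2 : T.card ≤ ⌊4 * r⌋₊ + 1 := by omega
  have h3 : (T.card : ℝ) ≤ (⌊4 * r⌋₊ : ℝ) + 1 := by exact_mod_cast h2
  have h4 := Nat.floor_le (show 0 ≤ 4 * r by positivity)
  linarith

/-- the basic data of a family -/
structure Fam (H : ℕ) (g : List Bool) (c : Bool) (S : Finset ℕ) (l φ : ℕ → List Bool) : Prop where
  off : ∀ m ∈ S, rn g c m ++ [!c] <+: l m
  s1 : ∀ m ∈ S, sz (l m) ≤ H
  s2 : ∀ m ∈ S, sz (φ m) ≤ H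
  ne : ∀ m ∈ S, φ m ≠ l m
  val : ∀ m ∈ S, FF (φ m) = FF (l m)

lemma Fam.sub {H : ℕ} {g : List Bool} {c : Bool} {S T : Finset ℕ} {l φ : ℕ → List Bool} (F : Fam H g c S l φ)
    (h : T ⊆ S) : Fam H g c T l φ :=
  ⟨fun m hm => F.off m (h hm), fun m hm => F.s1 m (h hm), fun m hm => F.s2 m (h hm), fun m hm => F.ne m (h hm),
    fun m hm => F.val m (h hm)⟩

/-- the gaps of the words relative to the end of the run -/
lemma Fam.gap {H : ℕ} {g : List Bool} {c : Bool} {S : Finset ℕ} {l φ : ℕ → List Bool} (F : Fam H g c S l φ)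
    {m n : ℕ} (hm : m ∈ S) (hn : m < n) :
    Real.exp (-2 * FF (rn g c m)) ≤ FF (l m) - ell (desc root (rn g c n)) (zz (l m)) ∧
      FF (l m) - ell (desc root (rn g c n)) (zz (l m)) ≤ 81 * H * Real.exp (-2 * FF (rn g c m)) := by
  refine gap_bounds (F.off m hm) ?_ (F.s1 m hm)
  rw [Bool.not_not]
  exact rn_lt g c hn

/-- if the differences are of the order of the levels of the run, there are few positions -/
lemma Fam.few {H ρ : ℕ} (hH : 1 ≤ H) (hs : (10 : ℝ) ^ 20 * ((4 * H : ℕ) : ℝ) ^ 20 ≤ 4 ^ ρ) {g : List Bool} {c : Bool}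
    {S : Finset ℕ} {l φ : ℕ → List Bool} (F : Fam H g c S l φ) (n : ℕ) (Y' : Nd)
    (h : ∀ m ∈ S, Real.exp (-2 * FF (rn g c m)) / 2 ≤
        |ell (desc root (rn g c n)) (zz (l m)) - ell Y' (zz (φ m))| ∧
      |ell (desc root (rn g c n)) (zz (l m)) - ell Y' (zz (φ m))| ≤
        81 * ((4 * H : ℕ) : ℝ) * Real.exp (-2 * FF (rn g c m))) : (S.card : ℝ) ≤ 4 * (4 * ρ + 1) := by
  classical
  have hρ0 : (0 : ℝ) ≤ ρ := Nat.cast_nonneg ρ
  rcases windows (fun m : ℕ => FF (rn g c m)) hρ0 4 S with ⟨o, ho, hch⟩ | ⟨T, hT, hcov⟩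
  · exfalso
    refine no_chain (H := 4 * H) (by omega) hs (desc root (rn g c n)) Y' (fun t => FF (rn g c (o t)))
      (fun t => zz (l (o t))) (fun t => zz (φ (o t))) (fun t => ?_) (fun t => ?_) (fun t => (h _ (ho t)).1)
      (fun t => (h _ (ho t)).2) hch
    · rw [nm_zz]; exact_mod_cast (F.s1 _ (ho t)).trans (by omega)
    · rw [nm_zz]; exact_mod_cast (F.s2 _ (ho t)).trans (by omega)
  · exact cover_windows S (fun m => FF (rn g c m)) T 4 hT (by positivity) hcov (fun μ => by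
      apply run_window g c _ hρ0 (x := μ)
      intro m hm
      exact (Finset.mem_filter.mp hm).2)

lemma hs_four {H ρ : ℕ} (hs : (10 : ℝ) ^ 20 * ((4 * H : ℕ) : ℝ) ^ 20 ≤ 4 ^ ρ) :
    (10 : ℝ) ^ 20 * (H : ℝ) ^ 20 ≤ 4 ^ ρ := by
  refine le_trans ?_ hs
  apply mul_le_mul_of_nonneg_left _ (by positivity)
  apply pow_le_pow_left₀ (Nat.cast_nonneg _)
  push_cast
  have : (0 : ℝ) ≤ H := Nat.cast_nonneg _
  linarith

/-- few positions with the same partner -/
lemma Fam.fibre {H ρ : ℕ} (hH : 1 ≤ H) (hs : (10 : ℝ) ^ 20 * ((4 * H : ℕ) : ℝ) ^ 20 ≤ 4 ^ ρ) {g : List Bool} {c : Bool}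
    {S : Finset ℕ} {l φ : ℕ → List Bool} (F : Fam H g c S l φ) (y : List Bool) (hy : ∀ m ∈ S, φ m = y) :
    (S.card : ℝ) ≤ 4 * (4 * ρ + 1) := by
  classical
  refine F.few hH hs (S.sup id + 1) (desc root y) (fun m hm => ?_)
  have hmn : m < S.sup id + 1 := by
    have := Finset.le_sup (f := id) hm
    simp only [id] at this
    omega
  obtain ⟨g1, g2⟩ := F.gap hm hmn
  have g3 := F_closed y y (inC_of_prefix (List.prefix_refl y))
  have g4 := dl_exp (List.prefix_refl y)
  have hv := F.val m hm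
  rw [hy m hm] at hv ⊢
  have g5 : FF (rn g c m) ≤ FF (l m) := FF_mono ((List.prefix_append _ _).trans (F.off m hm))
  have g6 : Real.exp (-2 * FF y) ≤ Real.exp (-2 * FF (rn g c m)) := Real.exp_le_exp.2 (by linarith)
  have hsz : (sz y : ℝ) ≤ H := by
    have := F.s2 m hm
    rw [hy m hm] at this
    exact_mod_cast this
  have hdl := dl_pos (valid_root.desc y)
  have E := Real.exp_pos (-2 * FF (rn g c m))
  have hH0 : (0 : ℝ) ≤ H := Nat.cast_nonneg _
  have g7 : 2 * dl (desc root y) * sz y ≤ 2 * (81 * Real.exp (-2 * FF (rn g c m))) * H := by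
    apply mul_le_mul _ hsz (Nat.cast_nonneg _) (by positivity)
    linarith
  have e : ell (desc root (rn g c (S.sup id + 1))) (zz (l m)) - ell (desc root y) (zz y) =
      -((FF (l m) - ell (desc root (rn g c (S.sup id + 1))) (zz (l m))) + (ell (desc root y) (zz y) - FF y)) := by
    rw [hv]; ring
  rw [e, abs_neg, abs_of_nonneg (by linarith [g3.2])]
  push_cast
  constructor
  · linarith [g3.2]
  · nlinarith [g3.1, g3.2]

end

end Pool.Agent.N576.MX
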