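import Mathlib
import Pool.Agent.N576.MX.K1

set_option autoImplicit false

/-!
# Families whose partners lie below one irrational cone
-/

namespace Pool.Agent.N576.MX

open Pool.Agent.H499R2 Pool.Agent.TH880.MK Pool.Agent.N576.MK

noncomputable section

lemma two_ext {m y : List Bool} {b b' : Bool} (h1 : m ++ [b] <+: y) (h2 : m ++ [b'] <+: y) : b = b' := by
  have h3 : m ++ [b] <+: m ++ [b'] := List.prefix_of_prefix_length_le h1 h2 (by simp)
  have h4 := h3.eq_of_length (by simp)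
  have h5 := List.append_inj' h4 rfl
  simpa using h5.2

lemma inc_of {m x y : List Bool} {b : Bool} (h1 : m ++ [b] <+: x) (h2 : m ++ [!b] <+: y) : Inc x y := by
  constructor
  · intro h
    have := two_ext (h1.trans h) h2
    cases b <;> simp at this
  · intro h
    have := two_ext h1 (h2.trans h)
    cases b <;> simp at this

/-- low levels: few positions -/
lemma Fam.cone_low {H ρ : ℕ} (hH : 1 ≤ H) (hs : (10 : ℝ) ^ 20 * ((4 * H : ℕ) : ℝ) ^ 20 ≤ 4 ^ ρ) {g : List Bool}
    {c : Bool} {S : Finset ℕ} {l φ : ℕ → List Bool} (F : Fam H g c S l φ) (k : List Bool)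
    (hk : ∀ m ∈ S, k <+: φ m ∧ FF (rn g c m) ≤ FF k) :
    (S.card : ℝ) ≤ 4 * (4 * ρ + 1) := by
  classical
  refine F.few hH hs (S.sup id + 1) (desc root k) (fun m hm => ?_)
  have hmn : m < S.sup id + 1 := by
    have := Finset.le_sup (f := id) hm
    simp only [id] at this
    omega
  obtain ⟨g1, g2⟩ := F.gap hm hmn
  have g3 := F_closed k (φ m) (inC_of_prefix (hk m hm).1)
  have g4 := dl_exp (List.prefix_refl k)
  have hv := F.val m hm
  have g5 := (hk m hm).2
  have g6 : Real.exp (-2 * FF k) ≤ Real.exp (-2 * FF (rn g c m)) := Real.exp_le_exp.2 (by linarith)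
  have hsz : (sz (φ m) : ℝ) ≤ H := by exact_mod_cast F.s2 m hm
  have hdl := dl_pos (valid_root.desc k)
  have E := Real.exp_pos (-2 * FF (rn g c m))
  have hH0 : (0 : ℝ) ≤ H := Nat.cast_nonneg _
  have g7 : 2 * dl (desc root k) * sz (φ m) ≤ 2 * (81 * Real.exp (-2 * FF (rn g c m))) * H := by
    apply mul_le_mul _ hsz (Nat.cast_nonneg _) (by positivity)
    linarith
  have e : ell (desc root (rn g c (S.sup id + 1))) (zz (l m)) - ell (desc root k) (zz (φ m)) =
      -((FF (l m) - ell (desc root (rn g c (S.sup id + 1))) (zz (l m))) +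
        (ell (desc root k) (zz (φ m)) - FF (φ m))) := by
    rw [hv]; ring
  rw [e, abs_neg, abs_of_nonneg (by linarith [g3.2])]
  push_cast
  constructor
  · linarith [g3.2]
  · nlinarith [g3.1, g3.2]

/-- three words -/
lemma Fam.triple {H : ℕ} (hH : 1 ≤ H) {g : List Bool} {c : Bool} {S : Finset ℕ} {l φ : ℕ → List Bool}
    (F : Fam H g c S l φ) {k : List Bool} (irr : IR H k) (hk : ∀ m ∈ S, k <+: φ m ∧ FF k ≤ FF (rn g c m))
    {m1 m2 m3 : ℕ} (h1 : m1 ∈ S) (h2 : m2 ∈ S) (h3 : m3 ∈ S) (h12 : m1 < m2) (h23 : m2 < m3)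
    (i12 : Inc (φ m1) (φ m2)) (i23 : Inc (φ m2) (φ m3)) (i31 : Inc (φ m3) (φ m1)) :
    ∃ V : ℝ, Real.exp (-2 * FF (rn g c m1)) ≤ |V| ∧ |V| ≤ 324 * H ^ 3 * Real.exp (-2 * FF (rn g c m1)) ∧
      Tri H (φ m1) (φ m2) (φ m3) V := by
  have hH1 : (1 : ℝ) ≤ H := by exact_mod_cast hH
  have nd : ∀ {s t : List Bool}, s ≠ t → dt (zz s) (zz t) ≠ 0 := fun h h0 => h (dt_zero h0)
  -- the words
  have o1 := F.off m1 h1
  have o2 := F.off m2 h2
  have o3 := F.off m3 h3
  have d12 : rn g c m1 ++ [c] <+: l m2 := (rn_lt g c h12).trans ((List.prefix_append _ _).trans o2)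
  have d13 : rn g c m1 ++ [c] <+: l m3 := (rn_lt g c (h12.trans h23)).trans ((List.prefix_append _ _).trans o3)
  have d23 : rn g c m2 ++ [c] <+: l m3 := (rn_lt g c h23).trans ((List.prefix_append _ _).trans o3)
  have j12 : Inc (l m1) (l m2) := inc_of o1 (by rw [Bool.not_not]; exact d12)
  have j13 : Inc (l m1) (l m3) := inc_of o1 (by rw [Bool.not_not]; exact d13)
  have j23 : Inc (l m2) (l m3) := inc_of o2 (by rw [Bool.not_not]; exact d23)
  have ne : ∀ {x y : List Bool}, Inc x y → x ≠ y := by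
    rintro x y h rfl
    exact h.1 (List.prefix_refl _)
  have n1 := nd (ne j23)
  have n2 := nd (ne j13).symm
  have n3 := nd (ne j12)
  have c1 := dt_H (F.s1 _ h2) (F.s1 _ h3)
  have c2 := dt_H (F.s1 _ h3) (F.s1 _ h1)
  have c3 := dt_H (F.s1 _ h1) (F.s1 _ h2)
  -- the relation of the words
  have rx : dt (zz (l m2)) (zz (l m3)) • zz (l m1) + dt (zz (l m3)) (zz (l m1)) • zz (l m2) +
      dt (zz (l m1)) (zz (l m2)) • zz (l m3) = 0 := by
    unfold dt
    apply Prod.ext
    · simp only [Prod.fst_add, Prod.smul_fst, smul_eq_mul, Prod.fst_zero]; ring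
    · simp only [Prod.snd_add, Prod.smul_snd, smul_eq_mul, Prod.snd_zero]; ring
  -- the relation of the partners
  have hgap : ∀ m ∈ S, m1 ≤ m → m < m3 + 1 → |FF (l m) - ell (desc root (rn g c (m3 + 1))) (zz (l m))| ≤
      81 * H * Real.exp (-2 * FF (rn g c m1)) := by
    intro m hm hm1 hm3
    obtain ⟨g1, g2⟩ := F.gap hm hm3
    have E := Real.exp_pos (-2 * FF (rn g c m))
    rw [abs_of_nonneg (by linarith)]
    refine g2.trans ?_
    apply mul_le_mul_of_nonneg_left _ (by positivity)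
    exact Real.exp_le_exp.2 (by linarith [lev_le g c hm1])
  have hdl := dl_lower k
  have ry := rel3 irr (desc root (rn g c (m3 + 1))) (hk m1 h1).1 (hk m2 h2).1 (hk m3 h3).1 (F.s2 _ h1) (F.s2 _ h2)
    (F.s2 _ h3) (F.s1 _ h1) (F.s1 _ h2) (F.s1 _ h3) (F.val _ h1).symm (F.val _ h2).symm (F.val _ h3).symm
    (hgap m1 h1 le_rfl (by omega)) (hgap m2 h2 h12.le (by omega)) (hgap m3 h3 (by omega) (by omega)) (by
      have e1 : Real.exp (-2 * FF (rn g c m1)) ≤ Real.exp (-2 * FF k) :=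
        Real.exp_le_exp.2 (by linarith [(hk m1 h1).2])
      have e2 : (0 : ℝ) ≤ H ^ 3 := by positivity
      calc 3 * (H : ℝ) ^ 2 * (81 * H * Real.exp (-2 * FF (rn g c m1))) = H ^ 3 * (243 * Real.exp (-2 * FF (rn g c m1))) := by
            ring
        _ ≤ H ^ 3 * (14 * dl (desc root k)) := by
            apply mul_le_mul_of_nonneg_left _ e2
            have := Real.exp_pos (-2 * FF k)
            linarith
        _ = 14 * H ^ 3 * dl (desc root k) := by ring)
  have T1 := tri j12 j23 j13.symm (F.s1 _ h1) (F.s1 _ h2) (F.s1 _ h3) n1 n2 n3 c1 c2 c3 rx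
  have T2 := tri i12 i23 i31 (F.s2 _ h1) (F.s2 _ h2) (F.s2 _ h3) n1 n2 n3 c1 c2 c3 ry
  rw [F.val _ h1, F.val _ h2, F.val _ h3] at T2
  refine ⟨_, T1.2.1 (rn g c m1) (!c) o1 (by rw [Bool.not_not]; exact d12), ?_, T2⟩
  exact T1.1 (rn g c m1) ((List.prefix_append _ _).trans o1) ((List.prefix_append _ _).trans d12)
    ((List.prefix_append _ _).trans d13)

/-- a family is combed: the partners hang off one word at the levels of the run -/
def Cmb (ρ : ℕ) (g : List Bool) (c : Bool) (T : Finset ℕ) (φ : ℕ → List Bool) : Prop :=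
  ∃ P : List Bool, ∀ m ∈ T, ∃ N d, N ++ [d] <+: φ m ∧ N ++ [!d] <+: P ∧ |FF N - FF (rn g c m)| ≤ ρ

/-- an antichain of partners below an irrational cone is combed up to few positions -/
lemma Fam.anti {H ρ : ℕ} (hH : 1 ≤ H) (hs : (10 : ℝ) ^ 20 * ((4 * H : ℕ) : ℝ) ^ 20 ≤ 4 ^ ρ) {g : List Bool}
    {c : Bool} {S : Finset ℕ} {l φ : ℕ → List Bool} (F : Fam H g c S l φ) {k : List Bool} (irr : IR H k)
    (hk : ∀ m ∈ S, k <+: φ m ∧ FF k ≤ FF (rn g c m)) (hinc : ∀ m ∈ S, ∀ n ∈ S, m ≠ n → Inc (φ m) (φ n))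
    {B1 : ℝ} (hB : ∀ T ⊆ S, Cmb ρ g c T φ → (T.card : ℝ) ≤ B1) : (S.card : ℝ) ≤ B1 + (4 * ρ + 1) + 3 := by
  classical
  have hρ0 : (0 : ℝ) ≤ ρ := Nat.cast_nonneg ρ
  have hB0 : 0 ≤ B1 := by
    have := hB ∅ (by simp) ⟨[], by simp⟩
    simpa using this
  have hr := exp_rho' (hs_four hs) hH
  have hH1 : (1 : ℝ) ≤ H := by exact_mod_cast hH
  rcases S.eq_empty_or_nonempty with h0 | ne1
  · rw [h0]; simp only [Finset.card_empty, Nat.cast_zero]; linarith
  obtain ⟨a3, ha3, hmax3⟩ := Finset.exists_max_image S id ne1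
  set S1 := S.erase a3 with hS1
  have c1 : S.card = S1.card + 1 := (Finset.card_erase_add_one ha3).symm
  rcases S1.eq_empty_or_nonempty with h0 | ne2
  · rw [c1, h0]; simp only [Finset.card_empty]; push_cast; linarith
  obtain ⟨a2, ha2, hmax2⟩ := Finset.exists_max_image S1 id ne2
  set S2 := S1.erase a2 with hS2
  have c2 : S1.card = S2.card + 1 := (Finset.card_erase_add_one ha2).symm
  rcases S2.eq_empty_or_nonempty with h0 | ne3
  · rw [c1, c2, h0]; simp only [Finset.card_empty]; push_cast; linarith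
  obtain ⟨a1, ha1, hmax1⟩ := Finset.exists_max_image S2 id ne3
  set S3 := S2.erase a1 with hS3
  have c3 : S2.card = S3.card + 1 := (Finset.card_erase_add_one ha1).symm
  have sub1 : ∀ m ∈ S1, m ∈ S ∧ m < a3 := by
    intro m hm
    have h1 := Finset.mem_erase.mp hm
    have h2 := hmax3 m h1.2
    simp only [id] at h2
    exact ⟨h1.2, lt_of_le_of_ne h2 h1.1⟩
  have sub2 : ∀ m ∈ S2, m ∈ S1 ∧ m < a2 := by
    intro m hm
    have h1 := Finset.mem_erase.mp hm
    have h2 := hmax2 m h1.2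
    simp only [id] at h2
    exact ⟨h1.2, lt_of_le_of_ne h2 h1.1⟩
  have sub3 : ∀ m ∈ S3, m ∈ S2 ∧ m < a1 := by
    intro m hm
    have h1 := Finset.mem_erase.mp hm
    have h2 := hmax1 m h1.2
    simp only [id] at h2
    exact ⟨h1.2, lt_of_le_of_ne h2 h1.1⟩
  have A2 := sub1 a2 ha2
  have A1 := sub2 a1 ha1
  have A1S := (sub1 a1 A1.1).1
  -- the top triple
  obtain ⟨N2, d2, e1, e2⟩ := diverge (φ a2) (φ a3) (hinc _ A2.1 _ ha3 (by omega)).1 (hinc _ ha3 _ A2.1 (by omega)).1
  have hlog : ∀ F0 G0 : ℝ, Real.exp (-2 * F0) ≤ 324 * H ^ 3 * Real.exp (-2 * G0) → G0 - ρ / 2 < F0 := by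
    intro F0 G0 h
    have h0 := Real.exp_pos (-2 * G0)
    have h1 : 324 * (H : ℝ) ^ 3 * Real.exp (-2 * G0) < Real.exp ρ * Real.exp (-2 * G0) := by
      apply mul_lt_mul_of_pos_right _ h0
      have : (0 : ℝ) < H ^ 3 := by positivity
      linarith
    rw [← Real.exp_add] at h1
    have h2 := Real.exp_lt_exp.1 (h.trans_lt h1)
    linarith
  have top : FF (rn g c a1) - ρ / 2 < FF N2 := by
    obtain ⟨V, v1, v2, v3⟩ := F.triple hH irr hk A1S A2.1 ha3 A1.2 A2.2 (hinc _ A1S _ A2.1 (by omega))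
      (hinc _ A2.1 _ ha3 (by omega)) (hinc _ ha3 _ A1S (by omega))
    exact hlog _ _ ((v3.2.2.1 N2 d2 e1 e2).trans v2)
  -- the combed part
  set T := S3.filter (fun m => FF (rn g c m) + ρ ≤ FF (rn g c a1)) with hT
  have hTc : Cmb ρ g c T φ := by
    refine ⟨φ a3, fun m hm => ?_⟩
    obtain ⟨hm3, hlv⟩ := Finset.mem_filter.mp hm
    have q3 := sub3 m hm3
    have q2 := sub2 m q3.1
    have q1 := sub1 m q2.1
    obtain ⟨N, d, f1, f2⟩ := diverge (φ m) (φ a3) (hinc _ q1.1 _ ha3 (by omega)).1 (hinc _ ha3 _ q1.1 (by omega)).1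
    refine ⟨N, d, f1, f2, ?_⟩
    obtain ⟨V, v1, v2, v3⟩ := F.triple hH irr hk q1.1 A2.1 ha3 q2.2 A2.2 (hinc _ q1.1 _ A2.1 (by omega))
      (hinc _ A2.1 _ ha3 (by omega)) (hinc _ ha3 _ q1.1 (by omega))
    have lo := hlog _ _ ((v3.2.2.2 N (!d) f2 (by rw [Bool.not_not]; exact f1)).trans v2)
    have up : FF N < FF (rn g c m) + ρ / 2 := by
      by_contra hcon
      push Not at hcon
      have key : ∀ T0 : List Bool, T0 <+: N → T0 <+: N2 → FF (rn g c m) + ρ / 2 ≤ FF T0 → False := by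
        intro T0 t1 t2 t3
        have h1 := v3.1 T0 (t1.trans ((List.prefix_append _ _).trans f1)) (t2.trans ((List.prefix_append _ _).trans e1))
          (t1.trans ((List.prefix_append _ _).trans f2))
        have h2 := hlog _ _ (v1.trans h1)
        linarith
      rcases le_total N.length N2.length with h | h
      · exact key N (List.prefix_refl _) (List.prefix_of_prefix_length_le ((List.prefix_append _ _).trans f2)
          ((List.prefix_append _ _).trans e2) h) hcon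
      · exact key N2 (List.prefix_of_prefix_length_le ((List.prefix_append _ _).trans e2)
          ((List.prefix_append _ _).trans f2) h) (List.prefix_refl _) (by linarith)
    rw [abs_le]; constructor <;> linarith
  have hTS : T ⊆ S := fun m hm => (sub1 m (sub2 m (sub3 m (Finset.mem_filter.mp hm).1).1).1).1
  have hTB := hB T hTS hTc
  have hR : (((S3.filter (fun m => ¬ FF (rn g c m) + ρ ≤ FF (rn g c a1))).card : ℕ) : ℝ) ≤ 4 * ρ + 1 := by
    apply run_window g c _ hρ0 (x := FF (rn g c a1) - ρ)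
    intro m hm
    obtain ⟨hm3, hlv⟩ := Finset.mem_filter.mp hm
    have q3 := sub3 m hm3
    have := lev_le g c q3.2.le
    constructor <;> linarith
  have hcard : S3.card = T.card + (S3.filter (fun m => ¬ FF (rn g c m) + ρ ≤ FF (rn g c a1))).card := by
    rw [hT]; exact (Finset.card_filter_add_card_filter_not (s := S3) _).symm
  have e : (S.card : ℝ) = (T.card : ℝ) + ((S3.filter (fun m => ¬ FF (rn g c m) + ρ ≤ FF (rn g c a1))).card : ℕ) + 3 := by
    rw [c1, c2, c3, hcard]; push_cast; ring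
  rw [e]
  linarith

end

end Pool.Agent.N576.MX
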