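import Mathlib
import Pool.Agent.N576.MX.K2

set_option autoImplicit false

/-!
# The number of positions in terms of combed families
-/

namespace Pool.Agent.N576.MX

open Pool.Agent.H499R2 Pool.Agent.TH880.MK Pool.Agent.N576.MK

noncomputable section

lemma card_fibres {β : Type*} [DecidableEq β] (S : Finset ℕ) (f : ℕ → β) {a b : ℝ} (ha : 0 ≤ a)
    (h1 : ∀ y, ((S.filter (fun m => f m = y)).card : ℝ) ≤ a) (h2 : ((S.image f).card : ℝ) ≤ b) :
    (S.card : ℝ) ≤ a * b := by
  have e : (S.card : ℝ) = ∑ y ∈ S.image f, ((S.filter (fun m => f m = y)).card : ℝ) := by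
    exact_mod_cast Finset.card_eq_sum_card_image f S
  calc (S.card : ℝ) = _ := e
    _ ≤ ∑ y ∈ S.image f, a := Finset.sum_le_sum fun y _ => h1 y
    _ = a * (S.image f).card := by rw [Finset.sum_const, nsmul_eq_mul]; ring
    _ ≤ a * b := mul_le_mul_of_nonneg_left h2 ha

/-- partners below one irrational cone -/
lemma Fam.cone {H ρ : ℕ} (hH : 1 ≤ H) (hs : (10 : ℝ) ^ 20 * ((4 * H : ℕ) : ℝ) ^ 20 ≤ 4 ^ ρ) {L : ℝ} (hL : ChL H L)
    {g : List Bool} {c : Bool} {S : Finset ℕ} {l φ : ℕ → List Bool} (F : Fam H g c S l φ) {k : List Bool}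
    (irr : IR H k) (hk : ∀ m ∈ S, k <+: φ m) {B1 : ℝ} (hB : ∀ T ⊆ S, Cmb ρ g c T φ → (T.card : ℝ) ≤ B1) :
    (S.card : ℝ) ≤ 4 * (4 * ρ + 1) * ((L + 1) * (B1 + (4 * ρ + 1) + 3) + 1) := by
  classical
  have hρ0 : (0 : ℝ) ≤ ρ := Nat.cast_nonneg ρ
  have hL0 : 0 ≤ L := by
    have := hL ∅ (by simp) (by simp)
    simpa using this
  have hB0 : 0 ≤ B1 := by
    have := hB ∅ (by simp) ⟨[], by simp⟩
    simpa using this
  set Sl := S.filter (fun m => FF (rn g c m) ≤ FF k) with hSl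
  set Sh := S.filter (fun m => ¬ FF (rn g c m) ≤ FF k) with hSh
  have cl : (Sl.card : ℝ) ≤ 4 * (4 * ρ + 1) :=
    (F.sub (Finset.filter_subset _ _)).cone_low hH hs k (fun m hm => by
      have h := Finset.mem_filter.mp hm
      exact ⟨hk m h.1, h.2⟩)
  have hShS : Sh ⊆ S := Finset.filter_subset _ _
  have FSh := F.sub hShS
  have ch : (Sh.card : ℝ) ≤ 4 * (4 * ρ + 1) * ((L + 1) * (B1 + (4 * ρ + 1) + 3)) := by
    apply card_fibres Sh φ (by positivity)
    · intro y
      refine (FSh.sub (Finset.filter_subset _ _)).fibre hH hs y (fun m hm => (Finset.mem_filter.mp hm).2)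
    · apply antichains hL
      · intro y hy
        obtain ⟨m, hm, rfl⟩ := Finset.mem_image.mp hy
        exact ⟨⟨l m, (FSh.ne m hm).symm, (FSh.val m hm).symm⟩, FSh.s2 m hm⟩
      · intro V hV hanti
        have hch : ∀ y ∈ V, ∃ m ∈ Sh, φ m = y := fun y hy => Finset.mem_image.mp (hV hy)
        choose! μ hμ1 hμ2 using hch
        set T := V.image μ with hT
        have hTS : T ⊆ Sh := by
          intro m hm
          obtain ⟨y, hy, rfl⟩ := Finset.mem_image.mp hm
          exact hμ1 y hy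
        have hcard : T.card = V.card := by
          apply Finset.card_image_of_injOn
          intro y hy y' hy' h
          rw [← hμ2 y hy, ← hμ2 y' hy', h]
        rw [← hcard]
        refine (FSh.sub hTS).anti hH hs irr (k := k) (fun m hm => ?_) (fun m hm n hn hmn => ?_) (fun T' hT' hc => ?_)
        · have h := Finset.mem_filter.mp (hTS hm)
          exact ⟨hk m h.1, (not_le.mp h.2).le⟩
        · obtain ⟨y, hy, rfl⟩ := Finset.mem_image.mp hm
          obtain ⟨y', hy', rfl⟩ := Finset.mem_image.mp hn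
          rw [hμ2 y hy, hμ2 y' hy']
          have hne : y ≠ y' := fun h => hmn (by rw [h])
          exact ⟨fun h => hne (hanti y hy y' hy' h), fun h => hne (hanti y' hy' y hy h).symm⟩
        · exact hB T' (hT'.trans (hTS.trans hShS)) hc
  have hcard : S.card = Sl.card + Sh.card := (Finset.card_filter_add_card_filter_not (s := S) _).symm
  have e : (S.card : ℝ) = (Sl.card : ℝ) + Sh.card := by rw [hcard]; push_cast; ring
  rw [e]
  have e2 : 4 * (4 * (ρ : ℝ) + 1) * ((L + 1) * (B1 + (4 * ρ + 1) + 3) + 1) =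
      4 * (4 * (ρ : ℝ) + 1) + 4 * (4 * ρ + 1) * ((L + 1) * (B1 + (4 * ρ + 1) + 3)) := by ring
  rw [e2]
  linarith

/-- partners whose pieces hang off one path -/
lemma Fam.path {H ρ : ℕ} (hH : 1 ≤ H) (hs : (10 : ℝ) ^ 20 * ((4 * H : ℕ) : ℝ) ^ 20 ≤ 4 ^ ρ) {L : ℝ} (hL : ChL H L)
    {g : List Bool} {c : Bool} {S : Finset ℕ} {l φ : ℕ → List Bool} (F : Fam H g c S l φ) {P' : List Bool}
    (κ : ℕ → List Bool) (hκ : ∀ m ∈ S, κ m ∈ PN H ρ ∧ κ m <+: φ m ∧ Hg P' (κ m)) {B1 : ℝ}
    (hB : ∀ T ⊆ S, Cmb ρ g c T φ → (T.card : ℝ) ≤ B1) :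
    (S.card : ℝ) ≤ 4 * (4 * ρ + 1) + B1 +
      4 * ((4 * ρ + 1) * (4 * (4 * ρ + 1) * ((L + 1) * (B1 + (4 * ρ + 1) + 3) + 1))) := by
  classical
  have hρ0 : (0 : ℝ) ≤ ρ := Nat.cast_nonneg ρ
  have hs1 := hs_four hs
  have hH1 : (1 : ℝ) ≤ H := by exact_mod_cast hH
  have hL0 : 0 ≤ L := by
    have := hL ∅ (by simp) (by simp)
    simpa using this
  have hB0 : 0 ≤ B1 := by
    have := hB ∅ (by simp) ⟨[], by simp⟩
    simpa using this
  obtain ⟨n, hn⟩ : ∃ n, n = S.sup id + 1 := ⟨_, rfl⟩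
  have hmn : ∀ m ∈ S, m < n := by
    intro m hm
    have := Finset.le_sup (f := id) hm
    simp only [id] at this
    omega
  -- the differences
  have hD : ∀ m ∈ S, (ρ : ℝ) < |FF (rn g c m) - FF (κ m).dropLast| →
      Real.exp (-2 * min (FF (rn g c m)) (FF (κ m).dropLast)) / 2 ≤
        |ell (desc root (rn g c n)) (zz (l m)) - ell (desc root P') (zz (φ m))| ∧
      |ell (desc root (rn g c n)) (zz (l m)) - ell (desc root P') (zz (φ m))| ≤
        81 * H * Real.exp (-2 * min (FF (rn g c m)) (FF (κ m).dropLast)) := by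
    intro m hm hlt
    obtain ⟨g1, g2⟩ := F.gap hm (hmn m hm)
    obtain ⟨g3, g4⟩ := gap_hg (hκ m hm).2.2 (hκ m hm).2.1 (F.s2 m hm)
    have g5 := two_gaps hs1 hH g1 g2 g3 g4 hlt
    have e : ell (desc root (rn g c n)) (zz (l m)) - ell (desc root P') (zz (φ m)) =
        -((FF (l m) - ell (desc root (rn g c n)) (zz (l m))) - (FF (φ m) - ell (desc root P') (zz (φ m)))) := by
      rw [F.val m hm]; ring
    rw [e, abs_neg]
    exact g5
  have h4 : ∀ a : ℝ, 81 * (H : ℝ) * Real.exp a ≤ 81 * ((4 * H : ℕ) : ℝ) * Real.exp a := by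
    intro a
    have := Real.exp_pos a
    push_cast
    nlinarith [mul_nonneg (show (0 : ℝ) ≤ H by linarith) this.le]
  set Sp := S.filter (fun m => FF (rn g c m) + ρ < FF (κ m).dropLast) with hSp
  set Sq := S.filter (fun m => ¬ FF (rn g c m) + ρ < FF (κ m).dropLast) with hSq
  set Sm := Sq.filter (fun m => FF (κ m).dropLast + ρ < FF (rn g c m)) with hSm
  set So := Sq.filter (fun m => ¬ FF (κ m).dropLast + ρ < FF (rn g c m)) with hSo
  have cp : (Sp.card : ℝ) ≤ 4 * (4 * ρ + 1) := by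
    refine (F.sub (Finset.filter_subset _ _)).few hH hs n (desc root P') (fun m hm => ?_)
    obtain ⟨h1, h2⟩ := Finset.mem_filter.mp hm
    have h3 := hD m h1 (by rw [abs_of_nonpos (by linarith)]; linarith)
    rw [min_eq_left (by linarith)] at h3
    exact ⟨h3.1, h3.2.trans (h4 _)⟩
  have co : (So.card : ℝ) ≤ B1 := by
    apply hB So ((Finset.filter_subset _ _).trans (Finset.filter_subset _ _))
    refine ⟨P', fun m hm => ?_⟩
    obtain ⟨h1, h2⟩ := Finset.mem_filter.mp hm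
    obtain ⟨h5, h6⟩ := Finset.mem_filter.mp h1
    obtain ⟨h7, h8, h9⟩ := hκ m h5
    obtain ⟨R, b, e1, e2⟩ := h9
    have e3 : (κ m).dropLast = R := by rw [e1, List.dropLast_concat]
    rw [e3] at h2 h6
    refine ⟨R, b, by rw [← e1]; exact h8, e2, ?_⟩
    push Not at h2 h6
    rw [abs_le]; constructor <;> linarith
  have cm : (Sm.card : ℝ) ≤ 4 * ((4 * ρ + 1) * (4 * (4 * ρ + 1) * ((L + 1) * (B1 + (4 * ρ + 1) + 3) + 1))) := by
    have hm : ∀ m ∈ Sm, m ∈ S ∧ FF (κ m).dropLast + ρ < FF (rn g c m) := fun m hm =>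
      ⟨(Finset.mem_filter.mp (Finset.mem_filter.mp hm).1).1, (Finset.mem_filter.mp hm).2⟩
    rcases windows (fun m : ℕ => FF (κ m).dropLast) hρ0 4 Sm with ⟨o, ho, hch⟩ | ⟨T, hT, hcov⟩
    · exfalso
      refine no_chain (H := 4 * H) (by omega) hs (desc root (rn g c n)) (desc root P')
        (fun t => FF (κ (o t)).dropLast) (fun t => zz (l (o t))) (fun t => zz (φ (o t))) (fun t => ?_) (fun t => ?_)
        (fun t => ?_) (fun t => ?_) hch
      · rw [nm_zz]; exact_mod_cast (F.s1 _ (hm _ (ho t)).1).trans (by omega)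
      · rw [nm_zz]; exact_mod_cast (F.s2 _ (hm _ (ho t)).1).trans (by omega)
      · obtain ⟨h1, h2⟩ := hm _ (ho t)
        have h3 := hD _ h1 (by rw [abs_of_nonneg (by linarith)]; linarith)
        rw [min_eq_right (by linarith)] at h3
        exact h3.1
      · obtain ⟨h1, h2⟩ := hm _ (ho t)
        have h3 := hD _ h1 (by rw [abs_of_nonneg (by linarith)]; linarith)
        rw [min_eq_right (by linarith)] at h3
        exact h3.2.trans (h4 _)
    · refine cover_windows Sm (fun m => FF (κ m).dropLast) T 4 hT (by positivity) hcov (fun μ => ?_)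
      set U := Sm.filter (fun m => μ ≤ FF (κ m).dropLast ∧ FF (κ m).dropLast ≤ μ + ρ) with hU
      have hUm : ∀ m ∈ U, m ∈ S ∧ μ ≤ FF (κ m).dropLast ∧ FF (κ m).dropLast ≤ μ + ρ := fun m h =>
        ⟨(hm m (Finset.mem_filter.mp h).1).1, (Finset.mem_filter.mp h).2⟩
      rw [mul_comm (4 * (ρ : ℝ) + 1)]
      apply card_fibres U κ (by positivity)
      · intro y
        rcases (U.filter (fun m => κ m = y)).eq_empty_or_nonempty with h0 | ⟨m0, hm0⟩
        · rw [h0]; simp only [Finset.card_empty, Nat.cast_zero]; positivity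
        · have hsubU : U.filter (fun m => κ m = y) ⊆ S := fun m h => (hUm m (Finset.mem_filter.mp h).1).1
          have h0 := Finset.mem_filter.mp hm0
          have hpn := (hκ m0 (hsubU hm0)).1
          rw [h0.2] at hpn
          refine (F.sub hsubU).cone hH hs hL (mem_PN.mp hpn).2.1.2 (fun m h => ?_) (fun T' hT' hc => hB T' (hT'.trans hsubU) hc)
          have h5 := Finset.mem_filter.mp h
          rw [← h5.2]
          exact (hκ m (hUm m h5.1).1).2.1
      · refine le_trans ?_ (hang_window (PN H ρ) P' hρ0 μ)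
        have : U.image κ ⊆ ((PN H ρ).filter (Hg P')).filter fun k => μ ≤ FF k.dropLast ∧ FF k.dropLast ≤ μ + ρ := by
          intro k hk
          obtain ⟨m, hmU, rfl⟩ := Finset.mem_image.mp hk
          have h := hUm m hmU
          have h2 := hκ m h.1
          rw [Finset.mem_filter, Finset.mem_filter]
          exact ⟨⟨h2.1, h2.2.2⟩, h.2⟩
        exact_mod_cast Finset.card_le_card this
  have hcard : S.card = Sp.card + (Sm.card + So.card) := by
    rw [hSp, hSm, hSo, Finset.card_filter_add_card_filter_not, hSq, Finset.card_filter_add_card_filter_not]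
  have e : (S.card : ℝ) = (Sp.card : ℝ) + (Sm.card + So.card) := by rw [hcard]; push_cast; ring
  rw [e]
  linarith

/-- **The number of positions in terms of combed families.** -/
theorem Fam.total {H ρ : ℕ} (hH : 1 ≤ H) (hρ : 2 ≤ ρ) (hs : (10 : ℝ) ^ 20 * ((4 * H : ℕ) : ℝ) ^ 20 ≤ 4 ^ ρ) {L : ℝ}
    (hL : ChL H L) {g : List Bool} {c : Bool} {S : Finset ℕ} {l φ : ℕ → List Bool} (F : Fam H g c S l φ) {B1 : ℝ}
    (hB : ∀ T ⊆ S, Cmb ρ g c T φ → (T.card : ℝ) ≤ B1) :
    (S.card : ℝ) ≤ 4 * (4 * ρ + 1) * ((10 * ρ ^ 2 + 4) * L) + (19 * ρ ^ 2 + 6) * (4 * (4 * ρ + 1) + B1 +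
      4 * ((4 * ρ + 1) * (4 * (4 * ρ + 1) * ((L + 1) * (B1 + (4 * ρ + 1) + 3) + 1)))) := by
  classical
  have hρ0 : (0 : ℝ) ≤ ρ := Nat.cast_nonneg ρ
  have hs1 := hs_four hs
  have hL0 : 0 ≤ L := by
    have := hL ∅ (by simp) (by simp)
    simpa using this
  have hB0 : 0 ≤ B1 := by
    have := hB ∅ (by simp) ⟨[], by simp⟩
    simpa using this
  set Sb := S.filter (fun m => φ m ∈ BW H ρ) with hSb
  set Sg := S.filter (fun m => ¬ φ m ∈ BW H ρ) with hSg
  have cb : (Sb.card : ℝ) ≤ 4 * (4 * ρ + 1) * ((10 * ρ ^ 2 + 4) * L) := by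
    apply card_fibres Sb φ (by positivity)
    · intro y
      refine ((F.sub (Finset.filter_subset _ _)).sub (Finset.filter_subset _ _)).fibre hH hs y
        (fun m hm => (Finset.mem_filter.mp hm).2)
    · refine le_trans ?_ (BWx_card hρ hH hs1 hL)
      have : Sb.image φ ⊆ (BW H ρ).filter Exw := by
        intro y hy
        obtain ⟨m, hm, rfl⟩ := Finset.mem_image.mp hy
        have h := Finset.mem_filter.mp hm
        exact Finset.mem_filter.mpr ⟨h.2, l m, (F.ne m h.1).symm, (F.val m h.1).symm⟩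
      exact_mod_cast Finset.card_le_card this
  have cg : (Sg.card : ℝ) ≤ (19 * ρ ^ 2 + 6) * (4 * (4 * ρ + 1) + B1 +
      4 * ((4 * ρ + 1) * (4 * (4 * ρ + 1) * ((L + 1) * (B1 + (4 * ρ + 1) + 3) + 1)))) := by
    have hSgS : Sg ⊆ S := Finset.filter_subset _ _
    have hK : ∀ m ∈ Sg, ∃ k, k ∈ PN H ρ ∧ k <+: φ m := by
      intro m hm
      have h := Finset.mem_filter.mp hm
      by_contra hno
      exact h.2 (mem_BW.mpr ⟨F.s2 m h.1, hno⟩)
    choose! κ hκ1 hκ2 using hK
    have hPth : ∀ k, k ∈ PN H ρ → ∃ P ∈ Paths H ρ, Hg P k := fun k hk => PN_cover hρ hH hs1 hk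
    choose! Pt hPt1 hPt2 using hPth
    rw [mul_comm]
    apply card_fibres Sg (fun m => Pt (κ m)) (by positivity)
    · intro P'
      have hsub : Sg.filter (fun m => Pt (κ m) = P') ⊆ S := (Finset.filter_subset _ _).trans hSgS
      refine (F.sub hsub).path hH hs hL κ (P' := P') (fun m hm => ?_) (fun T' hT' hc => hB T' (hT'.trans hsub) hc)
      have h := Finset.mem_filter.mp hm
      refine ⟨hκ1 m h.1, hκ2 m h.1, ?_⟩
      rw [← h.2]
      exact hPt2 _ (hκ1 m h.1)
    · have h1 : Sg.image (fun m => Pt (κ m)) ⊆ Paths H ρ := by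
        intro P hP
        obtain ⟨m, hm, rfl⟩ := Finset.mem_image.mp hP
        exact hPt1 _ (hκ1 m hm)
      have h2 := (Finset.card_le_card h1).trans (Paths_card hρ hH hs1)
      exact_mod_cast h2
  have hcard : S.card = Sb.card + Sg.card := (Finset.card_filter_add_card_filter_not (s := S) _).symm
  have e : (S.card : ℝ) = (Sb.card : ℝ) + Sg.card := by rw [hcard]; push_cast; ring
  rw [e]
  linarith

end

end Pool.Agent.N576.MX
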