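import Mathlib
import Pool.Agent.N576.MX.K3

set_option autoImplicit false

/-!
# Combed families are small: sizes
-/

namespace Pool.Agent.N576.MX

open Pool.Agent.H499R2 Pool.Agent.TH880.MK Pool.Agent.N576.MK

noncomputable section

/-- the size of a word below a node -/
lemma sz_app (k s : List Bool) : mm k * sz s ≤ sz (k ++ s) := by
  have hv := valid_root.desc k
  have h1 := sz_coord hv (k ++ s)
  have h2 := cu_vec hv s
  rw [zz_append] at h1
  rw [h2.1, h2.2] at h1
  have h3 : sz (k ++ s) = (pt s).1 * (desc root k).p + (pt s).2 * (desc root k).q := by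
    have : ((sz (k ++ s) : ℕ) : ℤ) = (((pt s).1 * (desc root k).p + (pt s).2 * (desc root k).q : ℕ) : ℤ) := by
      push_cast; linarith
    exact_mod_cast this
  rw [h3]
  unfold sz mm
  have e1 : min (desc root k).p (desc root k).q * (pt s).1 ≤ (desc root k).p * (pt s).1 :=
    Nat.mul_le_mul_right _ (min_le_left _ _)
  have e2 : min (desc root k).p (desc root k).q * (pt s).2 ≤ (desc root k).q * (pt s).2 :=
    Nat.mul_le_mul_right _ (min_le_right _ _)
  nlinarith

/-- the coordinates along a run -/
lemma rn_pq (g : List Bool) (c : Bool) (m : ℕ) :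
    (desc root (rn g c m)).p = (if c then (desc root g).p else (desc root g).p + m * (desc root g).q) ∧
    (desc root (rn g c m)).q = (if c then (desc root g).q + m * (desc root g).p else (desc root g).q) := by
  induction m with
  | zero => cases c <;> simp [rn]
  | succ m ih =>
    rw [rn_succ, desc_snoc]
    cases c
    · obtain ⟨h1, h2⟩ := ih
      simp only [Bool.false_eq_true, if_false] at h1 h2 ⊢
      refine ⟨?_, ?_⟩
      · show (desc root (rn g false m)).p + (desc root (rn g false m)).q = _
        rw [h1, h2]; ring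
      · exact h2
    · obtain ⟨h1, h2⟩ := ih
      simp only [if_true] at h1 h2 ⊢
      refine ⟨?_, ?_⟩
      · exact h1
      · show (desc root (rn g true m)).p + (desc root (rn g true m)).q = _
        rw [h1, h2]; ring

lemma pvs_pos (g : List Bool) (c : Bool) : 1 ≤ pvs g c := by
  have hv := valid_root.desc g
  unfold pvs
  cases c
  · simpa using hv.q1
  · simpa using hv.p1

lemma sz_rn (g : List Bool) (c : Bool) (m : ℕ) : sz (rn g c m) = sz g + m * pvs g c := by
  rw [← sz_pq, ← sz_pq]
  obtain ⟨h1, h2⟩ := rn_pq g c m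
  rw [h1, h2]
  unfold pvs
  cases c
  · simp; ring
  · simp; ring

/-- the side cones are balanced -/
lemma mm_side (g : List Bool) (c : Bool) {m : ℕ} (hm : 1 ≤ m) :
    sz (rn g c m) ≤ 2 * mm (rn g c m ++ [!c]) ∧ m * pvs g c ≤ mm (rn g c m ++ [!c]) := by
  obtain ⟨h1, h2⟩ := rn_pq g c m
  have hs := sz_pq (rn g c m)
  have hv := valid_root.desc g
  have hp := hv.p1
  have hq := hv.q1
  unfold mm
  rw [desc_snoc]
  cases c
  · simp only [Bool.false_eq_true, if_false] at h1 h2
    have e1 : (step (desc root (rn g false m)) (!false)).p = (desc root (rn g false m)).p := rfl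
    have e2 : (step (desc root (rn g false m)) (!false)).q =
      (desc root (rn g false m)).p + (desc root (rn g false m)).q := rfl
    rw [e1, e2, min_eq_left (by omega), ← hs]
    have h3 : (desc root g).q ≤ m * (desc root g).q := Nat.le_mul_of_pos_left _ hm
    unfold pvs
    simp only [Bool.false_eq_true, if_false]
    rw [h1, h2]
    constructor <;> nlinarith
  · simp only [if_true] at h1 h2
    have e1 : (step (desc root (rn g true m)) (!true)).p =
      (desc root (rn g true m)).p + (desc root (rn g true m)).q := rfl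
    have e2 : (step (desc root (rn g true m)) (!true)).q = (desc root (rn g true m)).q := rfl
    rw [e1, e2, min_eq_right (by omega), ← hs]
    have h3 : (desc root g).p ≤ m * (desc root g).p := Nat.le_mul_of_pos_left _ hm
    unfold pvs
    simp only [if_true]
    rw [h1, h2]
    constructor <;> nlinarith

/-- the suffix of a word leaving a run is small -/
lemma sfx {H : ℕ} {g : List Bool} {c : Bool} {m : ℕ} (hm : 1 ≤ m) {l : List Bool} (h : rn g c m ++ [!c] <+: l)
    (hl : sz l ≤ H) : ∃ s, l = ofr g c m s ∧ sz s * sz (rn g c m) ≤ 2 * H := by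
  obtain ⟨s, rfl⟩ := h
  refine ⟨s, by unfold ofr; simp, ?_⟩
  have h1 := sz_app (rn g c m ++ [!c]) s
  have h2 := (mm_side g c hm).1
  calc sz s * sz (rn g c m) ≤ sz s * (2 * mm (rn g c m ++ [!c])) := Nat.mul_le_mul_left _ h2
    _ = 2 * (mm (rn g c m ++ [!c]) * sz s) := by ring
    _ ≤ 2 * H := by omega

end

end Pool.Agent.N576.MX
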