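import Mathlib
import Pool.Agent.N576.MX.K4

set_option autoImplicit false

/-!
# Combed families are small
-/

namespace Pool.Agent.N576.MX

open Pool.Agent.H499R2 Pool.Agent.TH880.MK Pool.Agent.N576.MK

noncomputable section

lemma line3 (T : Finset ℕ) (τ : ℕ → ℕ)
    (h : ∀ a ∈ T, ∀ b ∈ T, ∀ c ∈ T, a < b → b < c →
      ((b : ℤ) - a) * ((τ c : ℤ) - τ a) = ((c : ℤ) - a) * ((τ b : ℤ) - τ a))
    {x y z : ℕ} (hx : x ∈ T) (hy : y ∈ T) (hz : z ∈ T) :
    ((y : ℤ) - x) * ((τ z : ℤ) - τ x) = ((z : ℤ) - x) * ((τ y : ℤ) - τ x) := by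
  rcases lt_trichotomy x y with h1 | h1 | h1
  · rcases lt_trichotomy y z with h2 | h2 | h2
    · exact h x hx y hy z hz h1 h2
    · subst h2; ring
    · rcases lt_trichotomy x z with h3 | h3 | h3
      · have := h x hx z hz y hy h3 h2
        linear_combination -this
      · subst h3; ring
      · have := h z hz x hx y hy h3 h1
        linear_combination this
  · subst h1; ring
  · rcases lt_trichotomy x z with h2 | h2 | h2
    · have := h y hy x hx z hz h1 h2
      linear_combination -this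
    · subst h2; ring
    · rcases lt_trichotomy y z with h3 | h3 | h3
      · have := h y hy z hz x hx h3 h2
        linear_combination this
      · subst h3; ring
      · have := h z hz y hy x hx h3 h1
        linear_combination -this

lemma exp_big {H ρ : ℕ} (hH : 1 ≤ H) (hs : (10 : ℝ) ^ 20 * ((4 * H : ℕ) : ℝ) ^ 20 ≤ 4 ^ ρ) {x : ℝ} (hx : 2 * ρ ≤ x) :
    (10 : ℝ) ^ 6 * H ^ 3 ≤ Real.exp x := by
  have hH1 : (1 : ℝ) ≤ H := by exact_mod_cast hH
  have h1 := hs_four hs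
  have h2 : (4 : ℝ) ^ ρ ≤ Real.exp (2 * ρ) := by
    have h4 : (4 : ℝ) ≤ Real.exp 2 := by
      have := Real.add_one_le_exp (1 : ℝ)
      have h5 : Real.exp 2 = Real.exp 1 * Real.exp 1 := by rw [← Real.exp_add]; norm_num
      nlinarith [Real.exp_pos 1]
    calc (4 : ℝ) ^ ρ ≤ (Real.exp 2) ^ ρ := pow_le_pow_left₀ (by norm_num) h4 _
      _ = Real.exp (2 * ρ) := by rw [← Real.exp_nat_mul]; ring_nf
  have h3 : Real.exp (2 * ρ) ≤ Real.exp x := Real.exp_le_exp.2 hx
  have h4 : (H : ℝ) ^ 3 ≤ H ^ 20 := pow_le_pow_right₀ hH1 (by norm_num)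
  have h5 : (10 : ℝ) ^ 6 * H ^ 3 ≤ 10 ^ 20 * H ^ 20 :=
    mul_le_mul (by norm_num) h4 (by positivity) (by norm_num)
  linarith

/-- **Combed families are small.** -/
theorem combed (hC : CORE) (hA : AFF) (hR : RUNX) {H ρ : ℕ} (hH : 1 ≤ H) (hρ : 2 ≤ ρ)
    (hs : (10 : ℝ) ^ 20 * ((4 * H : ℕ) : ℝ) ^ 20 ≤ 4 ^ ρ) {g : List Bool} {c : Bool} {T : Finset ℕ}
    {l φ : ℕ → List Bool} (F : Fam H g c T l φ) {M : ℕ} (hM : 1 ≤ M) (hTM : ∀ m ∈ T, M ≤ m ∧ m < 2 * M)
    (hsp : ∀ m ∈ T, ∀ n ∈ T, m < n → FF (rn g c m) + 4 * ρ ≤ FF (rn g c n)) (hbig : 16 * ρ ≤ sz (rn g c M))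
    (hc : Cmb ρ g c T φ) : (T.card : ℝ) ≤ 200000 * ((H : ℝ) / sz (rn g c M)) ^ 5 := by
  classical
  have hH1 : (1 : ℝ) ≤ H := by exact_mod_cast hH
  have hρ2 : (2 : ℝ) ≤ ρ := by exact_mod_cast hρ
  set σ := sz (rn g c M) with hσ
  have hσ32 : 32 ≤ σ := by omega
  have hσ0 : (0 : ℝ) < σ := by exact_mod_cast (show 0 < σ by omega)
  rcases T.eq_empty_or_nonempty with h0 | ⟨m0, hm0⟩
  · rw [h0]; simp only [Finset.card_empty, Nat.cast_zero]; positivity
  -- sizes along the run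
  have hsz : ∀ m ∈ T, σ ≤ sz (rn g c m) ∧ sz (rn g c m) ≤ 2 * σ := by
    intro m hm
    obtain ⟨h1, h2⟩ := hTM m hm
    rw [hσ, sz_rn, sz_rn]
    constructor
    · have := Nat.mul_le_mul_right (pvs g c) h1
      omega
    · have := Nat.mul_le_mul_right (pvs g c) h2.le
      have e : 2 * M * pvs g c = 2 * (M * pvs g c) := by ring
      omega
  have hlev : ∀ m ∈ T, (σ : ℝ) / 2 ≤ FF (rn g c m) ∧ FF (rn g c m) ≤ 4 * σ := by
    intro m hm
    obtain ⟨h1, h2⟩ := hsz m hm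
    obtain ⟨h3, h4⟩ := FF_size (rn g c m)
    have h1' : (σ : ℝ) ≤ sz (rn g c m) := by exact_mod_cast h1
    have h2' : (sz (rn g c m) : ℝ) ≤ 2 * σ := by exact_mod_cast h2
    constructor <;> linarith
  have hbig' : 16 * (ρ : ℝ) ≤ σ := by exact_mod_cast hbig
  have hY : (1 : ℝ) ≤ (H : ℝ) / σ := by
    rw [one_le_div hσ0]
    have h1 := (hsz m0 hm0).1
    have h2 := sz_prefix ((List.prefix_append _ _).trans (F.off m0 hm0))
    have h3 := F.s1 m0 hm0
    exact_mod_cast (h1.trans h2).trans h3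
  obtain ⟨P, hP⟩ := hc
  choose! N d hN1 hN2 hN3 using hP
  have hN : ∀ m ∈ T, FF (rn g c m) - ρ ≤ FF (N m) ∧ FF (N m) ≤ FF (rn g c m) + ρ := by
    intro m hm
    have := abs_le.mp (hN3 m hm)
    constructor <;> linarith
  have hNsz : ∀ m ∈ T, 7 * (σ : ℝ) / 32 ≤ sz (N m) ∧ (sz (N m) : ℝ) ≤ 9 * σ := by
    intro m hm
    obtain ⟨h1, h2⟩ := hN m hm
    obtain ⟨h3, h4⟩ := hlev m hm
    obtain ⟨h5, h6⟩ := FF_size (N m)
    constructor <;> linarith
  have hNmono : ∀ m ∈ T, ∀ n ∈ T, m < n → FF (N m) < FF (N n) := by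
    intro m hm n hn hmn
    have h1 := hsp m hm n hn hmn
    have h2 := (hN m hm).2
    have h3 := (hN n hn).1
    linarith
  have hNinj : Set.InjOn N (T : Set ℕ) := by
    intro m hm n hn h
    rcases lt_trichotomy m n with h1 | h1 | h1
    · have := hNmono m hm n hn h1
      rw [h] at this
      exact absurd this (lt_irrefl _)
    · exact h1
    · have := hNmono n hn m hm h1
      rw [h] at this
      exact absurd this (lt_irrefl _)
  -- the run of the partners
  obtain ⟨g', c', A', hA', hcard, hrun⟩ := hR P (T.image N) (σ / 8) 8 (by omega) (by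
    intro X hX
    obtain ⟨m, hm, rfl⟩ := Finset.mem_image.mp hX
    obtain ⟨h1, h2⟩ := hNsz m hm
    refine ⟨⟨!(d m), hN2 m hm⟩, ?_, ?_⟩
    · have h3 : (((σ / 8 : ℕ)) : ℝ) ≤ (σ : ℝ) / 8 := Nat.cast_div_le
      have h4 : (((σ / 8 : ℕ)) : ℝ) ≤ sz (N m) := by linarith
      exact_mod_cast h4
    · have h3 : sz (N m) ≤ 9 * σ := by exact_mod_cast h2
      have h4 : σ < 8 * (σ / 8) + 8 := by omega
      norm_num
      omega)
  choose! t ht1 ht2 using hrun
  set T1 := T.filter (fun m => N m ∈ A') with hT1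
  have cT1 : T1.card = A'.card := by
    have e : T1.image N = A' := by
      ext X
      rw [Finset.mem_image]
      constructor
      · rintro ⟨m, hm, rfl⟩
        exact (Finset.mem_filter.mp hm).2
      · intro hX
        obtain ⟨m, hm, rfl⟩ := Finset.mem_image.mp (hA' hX)
        exact ⟨m, Finset.mem_filter.mpr ⟨hm, hX⟩, rfl⟩
    rw [← e, Finset.card_image_of_injOn]
    intro m hm n hn h
    exact hNinj (Finset.mem_filter.mp hm).1 (Finset.mem_filter.mp hn).1 h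
  have cT : T.card ≤ 19 * T1.card := by
    rw [cT1]
    rw [Finset.card_image_of_injOn hNinj] at hcard
    omega
  set τ : ℕ → ℕ := fun m => t (N m) with hτ
  have hmem1 : ∀ m ∈ T1, m ∈ T ∧ N m = rn g' c' (τ m) ∧ rn g' c' (τ m + 1) <+: P := by
    intro m hm
    obtain ⟨h1, h2⟩ := Finset.mem_filter.mp hm
    exact ⟨h1, ht1 _ h2, ht2 _ h2⟩
  have hτmono : ∀ m ∈ T1, ∀ n ∈ T1, m < n → τ m < τ n := by
    intro m hm n hn hmn
    by_contra hcon
    push Not at hcon
    have h1 := lev_le g' c' hcon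
    rw [← (hmem1 m hm).2.1, ← (hmem1 n hn).2.1] at h1
    have h2 := hNmono m (hmem1 m hm).1 n (hmem1 n hn).1 hmn
    linarith
  set T2 := T1.filter (fun m => 1 ≤ τ m) with hT2
  have cT2 : T1.card ≤ T2.card + 1 := by
    have h1 : (T1.filter (fun m => ¬ 1 ≤ τ m)).card ≤ 1 := by
      rw [Finset.card_le_one]
      intro a ha b hb
      obtain ⟨ha1, ha2⟩ := Finset.mem_filter.mp ha
      obtain ⟨hb1, hb2⟩ := Finset.mem_filter.mp hb
      rcases lt_trichotomy a b with h | h | h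
      · have := hτmono a ha1 b hb1 h; omega
      · exact h
      · have := hτmono b hb1 a ha1 h; omega
    have h2 : T1.card = T2.card + (T1.filter (fun m => ¬ 1 ≤ τ m)).card :=
      (Finset.card_filter_add_card_filter_not (s := T1) _).symm
    omega
  have hmem2 : ∀ m ∈ T2, m ∈ T1 ∧ 1 ≤ τ m := fun m hm => Finset.mem_filter.mp hm
  -- suffixes
  have hs1 : ∀ m ∈ T2, ∃ s, l m = ofr g c m s ∧ sz s * sz (rn g c m) ≤ 2 * H := by
    intro m hm
    have h1 := (hmem1 m (hmem2 m hm).1).1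
    exact sfx (by have := (hTM m h1).1; omega) (F.off m h1) (F.s1 m h1)
  have hs2 : ∀ m ∈ T2, ∃ s, φ m = ofr g' c' (τ m) s ∧ sz s * sz (rn g' c' (τ m)) ≤ 2 * H := by
    intro m hm
    obtain ⟨h1, h2⟩ := hmem2 m hm
    obtain ⟨h3, h4, h5⟩ := hmem1 m h1
    refine sfx h2 ?_ (F.s2 m h3)
    have h6 := hN1 m h3
    have h7 := hN2 m h3
    rw [rn_succ, ← h4] at h5
    have h8 := two_ext h7 h5
    rw [← h4, ← h8, Bool.not_not]
    exact h6
  choose! s1 hs11 hs12 using hs1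
  choose! s2 hs21 hs22 using hs2
  obtain ⟨B, hBd⟩ : ∃ B, B = 2 * H / σ := ⟨_, rfl⟩
  obtain ⟨B', hBd'⟩ : ∃ B', B' = 10 * H / σ := ⟨_, rfl⟩
  have hσpos : 0 < σ := by omega
  have hb1 : ∀ m ∈ T2, sz (s1 m) ≤ B := by
    intro m hm
    have h1 := (hsz m (hmem1 m (hmem2 m hm).1).1).1
    rw [hBd, Nat.le_div_iff_mul_le hσpos]
    exact (Nat.mul_le_mul_left _ h1).trans (hs12 m hm)
  have hb2 : ∀ m ∈ T2, sz (s2 m) ≤ B' := by
    intro m hm
    obtain ⟨h1, h2⟩ := hmem2 m hm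
    obtain ⟨h3, h4, -⟩ := hmem1 m h1
    have h5 := (hNsz m h3).1
    rw [h4] at h5
    have h6 : ((sz (s2 m) : ℕ) : ℝ) * sz (rn g' c' (τ m)) ≤ 2 * H := by exact_mod_cast hs22 m hm
    rw [hBd', Nat.le_div_iff_mul_le hσpos]
    have h7 : ((sz (s2 m) : ℕ) : ℝ) * σ ≤ 10 * H := by
      have h8 : ((sz (s2 m) : ℕ) : ℝ) * (7 * (σ : ℝ) / 32) ≤ 2 * H :=
        (mul_le_mul_of_nonneg_left h5 (Nat.cast_nonneg _)).trans h6
      have h9 : (0 : ℝ) ≤ ((sz (s2 m) : ℕ) : ℝ) * σ := by positivity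
      nlinarith
    exact_mod_cast h7
  have cT2' : (T2.card : ℝ) ≤ (2 * B + 2 * B' + 2) * ((B : ℝ) ^ 2 * (B' : ℝ) ^ 2) := by
    apply card_fibres T2 (fun m => (s1 m, s2 m)) (by positivity)
    · rintro ⟨s, s'⟩
      set T3 := T2.filter (fun m => (s1 m, s2 m) = (s, s')) with hT3
      have hm3 : ∀ m ∈ T3, m ∈ T2 ∧ l m = ofr g c m s ∧ φ m = ofr g' c' (τ m) s' := by
        intro m hm
        obtain ⟨h1, h2⟩ := Finset.mem_filter.mp hm
        have e1 : s1 m = s := congrArg Prod.fst h2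
        have e2 : s2 m = s' := congrArg Prod.snd h2
        exact ⟨h1, by rw [← e1]; exact hs11 m h1, by rw [← e2]; exact hs21 m h1⟩
      rcases T3.eq_empty_or_nonempty with h0 | ⟨m1, hm1⟩
      · rw [h0]; simp only [Finset.card_empty, Nat.cast_zero]; positivity
      have hin : ∀ m ∈ T3, m ∈ T := fun m hm => (hmem1 m (hmem2 m (hm3 m hm).1).1).1
      have hτ3 : ∀ m ∈ T3, ∀ n ∈ T3, m < n → τ m < τ n := fun m hm n hn h =>
        hτmono m (hmem2 m (hm3 m hm).1).1 n (hmem2 n (hm3 n hn).1).1 h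
      have hval : ∀ m ∈ T3, FF (ofr g c m s) = FF (ofr g' c' (τ m) s') := by
        intro m hm
        obtain ⟨-, h1, h2⟩ := hm3 m hm
        rw [← h1, ← h2]
        exact (F.val m (hin m hm)).symm
      have haff : ∀ a ∈ T3, ∀ b ∈ T3, ∀ e ∈ T3, a < b → b < e →
          ((b : ℤ) - a) * ((τ e : ℤ) - τ a) = ((e : ℤ) - a) * ((τ b : ℤ) - τ a) := by
        intro a ha b hb e he hab hbe
        refine hA H g g' c c' s s' a b e (τ a) (τ b) (τ e) hH hab hbe (hτ3 a ha b hb hab) (hτ3 b hb e he hbe)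
          (hval a ha) (hval b hb) (hval e he) ?_ ?_ ?_ ?_
        · rw [← (hm3 e he).2.1]; exact F.s1 e (hin e he)
        · rw [← (hm3 e he).2.2]; exact F.s2 e (hin e he)
        · apply exp_big hH hs
          have := (hlev a (hin a ha)).1
          linarith
        · apply exp_big hH hs
          have h1 := (hlev a (hin a ha)).1
          have h2 := (hN a (hin a ha)).1
          rw [(hmem1 a (hmem2 a (hm3 a ha).1).1).2.1] at h2
          linarith
      have hcore := hC g g' c c' s s' (T3.image (fun m => (m, τ m))) (by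
        intro x hx
        obtain ⟨m, hm, rfl⟩ := Finset.mem_image.mp hx
        refine ⟨hval m hm, ?_⟩
        obtain ⟨-, h1, h2⟩ := hm3 m hm
        show ofr g c m s ≠ ofr g' c' (τ m) s'
        rw [← h1, ← h2]
        exact (F.ne m (hin m hm)).symm) (by
        intro x hx y hy hxy
        obtain ⟨m, hm, rfl⟩ := Finset.mem_image.mp hx
        obtain ⟨n, hn, rfl⟩ := Finset.mem_image.mp hy
        exact hτ3 m hm n hn hxy) (by
        intro x hx y hy hxy
        obtain ⟨m, hm, rfl⟩ := Finset.mem_image.mp hx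
        obtain ⟨n, hn, rfl⟩ := Finset.mem_image.mp hy
        have : m = n := hxy
        rw [this]) (by
        intro x hx y hy z hz
        obtain ⟨m, hm, rfl⟩ := Finset.mem_image.mp hx
        obtain ⟨n, hn, rfl⟩ := Finset.mem_image.mp hy
        obtain ⟨o, ho, rfl⟩ := Finset.mem_image.mp hz
        exact line3 T3 τ haff hm hn ho)
      rw [Finset.card_image_of_injective _ (fun a b h => congrArg Prod.fst h)] at hcore
      have h5 : sz s ≤ B := by
        have := hb1 m1 (hm3 m1 hm1).1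
        have e1 : s1 m1 = s := congrArg Prod.fst (Finset.mem_filter.mp hm1).2
        rwa [e1] at this
      have h6 : sz s' ≤ B' := by
        have := hb2 m1 (hm3 m1 hm1).1
        have e1 : s2 m1 = s' := congrArg Prod.snd (Finset.mem_filter.mp hm1).2
        rwa [e1] at this
      have h7 : T3.card ≤ 2 * B + 2 * B' + 2 := by omega
      exact_mod_cast h7
    · have h1 : T2.image (fun m => (s1 m, s2 m)) ⊆ SW B ×ˢ SW B' := by
        intro x hx
        obtain ⟨m, hm, rfl⟩ := Finset.mem_image.mp hx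
        rw [Finset.mem_product]
        exact ⟨(mem_SW _ _).mpr (hb1 m hm), (mem_SW _ _).mpr (hb2 m hm)⟩
      have h2 := Finset.card_le_card h1
      rw [Finset.card_product] at h2
      have h3 := card_SW B
      have h4 := card_SW B'
      have h5 : (SW B).card * (SW B').card ≤ B ^ 2 * B' ^ 2 := Nat.mul_le_mul (by omega) (by omega)
      exact_mod_cast h2.trans h5
  -- the numbers
  obtain ⟨Y, hYd⟩ : ∃ Y : ℝ, Y = (H : ℝ) / σ := ⟨_, rfl⟩
  rw [← hYd] at hY ⊢
  have hB2 : (B : ℝ) ≤ 2 * Y := by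
    rw [hBd, hYd]
    refine (Nat.cast_div_le).trans (le_of_eq ?_)
    push_cast; ring
  have hB2' : (B' : ℝ) ≤ 10 * Y := by
    rw [hBd', hYd]
    refine (Nat.cast_div_le).trans (le_of_eq ?_)
    push_cast; ring
  have e1 : (B : ℝ) ^ 2 ≤ (2 * Y) ^ 2 := pow_le_pow_left₀ (Nat.cast_nonneg _) hB2 2
  have e2 : (B' : ℝ) ^ 2 ≤ (10 * Y) ^ 2 := pow_le_pow_left₀ (Nat.cast_nonneg _) hB2' 2
  have e3 : (T2.card : ℝ) ≤ (26 * Y) * ((2 * Y) ^ 2 * (10 * Y) ^ 2) := by
    refine cT2'.trans ?_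
    apply mul_le_mul _ _ (by positivity) (by linarith)
    · linarith
    · exact mul_le_mul e1 e2 (by positivity) (by positivity)
  have e4 : (26 * Y) * ((2 * Y) ^ 2 * (10 * Y) ^ 2) = 10400 * Y ^ 5 := by ring
  rw [e4] at e3
  have e5 : (1 : ℝ) ≤ Y ^ 5 := one_le_pow₀ hY
  have e6 : (T.card : ℝ) ≤ 19 * (T2.card + 1) := by
    have : T.card ≤ 19 * (T2.card + 1) := by omega
    exact_mod_cast this
  linarith

end

end Pool.Agent.N576.MX
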