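import Mathlib
import Pool.Agent.N576.MX.K5

set_option autoImplicit false

/-!
# Few exceptional positions on a run
-/

namespace Pool.Agent.N576.MX

open Pool.Agent.H499R2 Pool.Agent.TH880.MK Pool.Agent.N576.MK

noncomputable section

lemma lm_double {H : ℕ} (hH : 1 ≤ H) : lm (2 * H) ≤ 2 * lm H := by
  have hH1 : (1 : ℝ) ≤ H := by exact_mod_cast hH
  have h0 := lm_two hH
  have h1 : Real.log (2 * ((2 * H : ℕ) : ℝ)) = Real.log 2 + Real.log (2 * H) := by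
    push_cast
    rw [← Real.log_mul (by norm_num) (by positivity)]
  have h2 := Real.log_two_lt_d9
  unfold lm at h0 ⊢
  rw [h1]
  linarith

/-- the numerical bound -/
lemma total_le {ρ L B : ℝ} (hρ : 2 ≤ ρ) (hL : 0 ≤ L) (hB : 6 ≤ B) :
    4 * (4 * ρ + 1) * ((10 * ρ ^ 2 + 4) * L) + (19 * ρ ^ 2 + 6) * (4 * (4 * ρ + 1) + B +
      4 * ((4 * ρ + 1) * (4 * (4 * ρ + 1) * ((L + 1) * (B + (4 * ρ + 1) + 3) + 1)))) ≤
      25441 * ρ ^ 5 * (L + 1) * B := by
  have hρ0 : 0 ≤ ρ := by linarith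
  have hB0 : 0 ≤ B := by linarith
  have a1 : 4 * ρ + 1 ≤ 5 * ρ := by linarith
  have a2 : 10 * ρ ^ 2 + 4 ≤ 11 * ρ ^ 2 := by nlinarith
  have a3 : 19 * ρ ^ 2 + 6 ≤ 21 * ρ ^ 2 := by nlinarith
  have hρB : 6 * ρ ≤ ρ * B := by nlinarith
  have a4 : B + (4 * ρ + 1) + 3 ≤ 2 * ρ * B := by nlinarith
  have hL1 : 1 ≤ L + 1 := by linarith
  have hρB1 : 1 ≤ ρ * B := by nlinarith
  have a5 : (L + 1) * (B + (4 * ρ + 1) + 3) + 1 ≤ 3 * ρ * (L + 1) * B := by
    have e1 : (L + 1) * (B + (4 * ρ + 1) + 3) ≤ (L + 1) * (2 * ρ * B) := mul_le_mul_of_nonneg_left a4 (by linarith)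
    have e2 : 1 ≤ (L + 1) * (ρ * B) := by nlinarith
    nlinarith
  have a6 : 4 * ((4 * ρ + 1) * (4 * (4 * ρ + 1) * ((L + 1) * (B + (4 * ρ + 1) + 3) + 1))) ≤
      1200 * ρ ^ 3 * (L + 1) * B := by
    calc 4 * ((4 * ρ + 1) * (4 * (4 * ρ + 1) * ((L + 1) * (B + (4 * ρ + 1) + 3) + 1)))
        ≤ 4 * ((5 * ρ) * (4 * (5 * ρ) * (3 * ρ * (L + 1) * B))) := by gcongr
      _ = 1200 * ρ ^ 3 * (L + 1) * B := by ring
  have a7 : 4 * (4 * ρ + 1) + B ≤ ρ ^ 3 * (L + 1) * B := by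
    have e1 : 4 * (4 * ρ + 1) + B ≤ 4 * (ρ * B) := by nlinarith
    have e2 : (4 : ℝ) ≤ ρ ^ 2 := by nlinarith
    have e3 : 4 * (ρ * B) ≤ ρ ^ 2 * (ρ * B) := mul_le_mul_of_nonneg_right e2 (by positivity)
    have e4 : ρ ^ 2 * (ρ * B) ≤ ρ ^ 2 * (ρ * B) * (L + 1) := le_mul_of_one_le_right (by positivity) hL1
    calc 4 * (4 * ρ + 1) + B ≤ 4 * (ρ * B) := e1
      _ ≤ ρ ^ 2 * (ρ * B) * (L + 1) := e3.trans e4
      _ = ρ ^ 3 * (L + 1) * B := by ring
  have a8 : (19 * ρ ^ 2 + 6) * (4 * (4 * ρ + 1) + B +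
      4 * ((4 * ρ + 1) * (4 * (4 * ρ + 1) * ((L + 1) * (B + (4 * ρ + 1) + 3) + 1)))) ≤
      25221 * ρ ^ 5 * (L + 1) * B := by
    calc _ ≤ (21 * ρ ^ 2) * (ρ ^ 3 * (L + 1) * B + 1200 * ρ ^ 3 * (L + 1) * B) :=
          mul_le_mul a3 (by linarith) (by positivity) (by positivity)
      _ = 25221 * ρ ^ 5 * (L + 1) * B := by ring
  have a9 : 4 * (4 * ρ + 1) * ((10 * ρ ^ 2 + 4) * L) ≤ 220 * ρ ^ 5 * (L + 1) * B := by
    have e1 : (1 : ℝ) ≤ ρ ^ 2 * B := by nlinarith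
    have e2 : ρ ^ 3 * (L + 1) ≤ ρ ^ 3 * (L + 1) * (ρ ^ 2 * B) := le_mul_of_one_le_right (by positivity) e1
    calc 4 * (4 * ρ + 1) * ((10 * ρ ^ 2 + 4) * L) ≤ 4 * (5 * ρ) * ((11 * ρ ^ 2) * (L + 1)) := by
          gcongr
          linarith
      _ = 220 * (ρ ^ 3 * (L + 1)) := by ring
      _ ≤ 220 * (ρ ^ 3 * (L + 1) * (ρ ^ 2 * B)) := by linarith
      _ = 220 * ρ ^ 5 * (L + 1) * B := by ring
  linarith

/-- **Few exceptional positions on a run.** -/
theorem pr_of (hC : CORE) (hA : AFF) (hR : RUNX) : PR := by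
  classical
  intro ε hε
  obtain ⟨C0, hC0, L0, hL0, hChL, -⟩ := count_num
  obtain ⟨C1, hC1, hlm⟩ := lm_pow 11 ε hε
  obtain ⟨K, hK⟩ : ∃ K : ℝ, K = 16 * 25441 * 82 ^ 6 * (L0 + 1) * 200000 := ⟨_, rfl⟩
  have hK0 : 0 < K := by rw [hK]; positivity
  have hK1 : 16 * 82 ≤ K := by rw [hK]; nlinarith
  refine ⟨K * C1, by positivity, ?_⟩
  intro H g c M S hH hM hS
  have hH1 : 1 ≤ H := by omega
  have hl2 := lm_two hH1
  obtain ⟨σ, hσ⟩ : ∃ σ, σ = sz (rn g c M) := ⟨_, rfl⟩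
  have hσM : M ≤ σ := by
    rw [hσ, sz_rn]
    have := Nat.mul_le_mul_left M (pvs_pos g c)
    omega
  have hσ0 : (0 : ℝ) < σ := by exact_mod_cast (show 0 < σ by omega)
  rcases S.eq_empty_or_nonempty with h0 | ⟨m0, hm0⟩
  · rw [h0]; simp only [Finset.card_empty, Nat.cast_zero]; positivity
  have hex : ∀ m ∈ S, ∃ l φ, rn g c m ++ [!c] <+: l ∧ sz l ≤ H ∧ sz φ ≤ H ∧ φ ≠ l ∧ FF φ = FF l := by
    intro m hm
    obtain ⟨-, -, l, h1, h2, φ, h3, h4, h5⟩ := hS m hm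
    exact ⟨l, φ, h1, h2, h3, h4, h5⟩
  choose! l φ e1 e2 e3 e4 e5 using hex
  have F : Fam H g c S l φ := ⟨e1, e2, e3, e4, e5⟩
  rw [← hσ]
  have hY : (1 : ℝ) ≤ (H : ℝ) / σ := by
    rw [one_le_div hσ0]
    have h1 : σ ≤ sz (rn g c m0) := by rw [hσ]; exact sz_prefix (rn_prefix g c (hS m0 hm0).1)
    have h2 := sz_prefix ((List.prefix_append _ _).trans (F.off m0 hm0))
    have h3 := F.s1 m0 hm0
    exact_mod_cast (h1.trans h2).trans h3
  obtain ⟨Y, hYd⟩ : ∃ Y : ℝ, Y = (H : ℝ) / σ := ⟨_, rfl⟩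
  rw [← hYd] at hY ⊢
  have hY5 : (1 : ℝ) ≤ Y ^ 5 := one_le_pow₀ hY
  obtain ⟨ρ, hρd⟩ : ∃ ρ, ρ = rh (2 * H) := ⟨_, rfl⟩
  obtain ⟨f1, f2, f3, -, -, -, -⟩ := rh_facts (H := 2 * H) (by omega)
  rw [← hρd] at f1 f2 f3
  rw [show 2 * (2 * H) = 4 * H by ring] at f1
  have f4 : (ρ : ℝ) ≤ 82 * lm H := by linarith [lm_double hH1]
  have hρ2 : (2 : ℝ) ≤ ρ := by exact_mod_cast f3
  have hρ0 : (0 : ℝ) ≤ ρ := by linarith
  have hl0 : 0 ≤ lm H := by linarith
  have hl1 : 1 ≤ lm H := by linarith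
  -- it suffices to have the bound with powers of the logarithm
  suffices h : (S.card : ℝ) ≤ K * lm H ^ 11 * Y ^ 5 by
    refine h.trans ?_
    apply mul_le_mul_of_nonneg_right _ (by positivity)
    rw [mul_assoc]
    exact mul_le_mul_of_nonneg_left (hlm H hH1) hK0.le
  rcases Nat.lt_or_ge σ (16 * ρ) with hlt | hge
  · have h1 : S.card ≤ M := by
      have h2 : S ⊆ Finset.Ico M (2 * M) := by
        intro m hm
        rw [Finset.mem_Ico]
        exact ⟨(hS m hm).1, (hS m hm).2.1⟩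
      have h3 := Finset.card_le_card h2
      rw [Nat.card_Ico] at h3
      omega
    have h2 : (S.card : ℝ) ≤ 16 * ρ := by
      have : S.card ≤ 16 * ρ := by omega
      exact_mod_cast this
    have h3 : lm H ≤ lm H ^ 11 := le_self_pow₀ hl1 (by norm_num)
    have h4 : (S.card : ℝ) ≤ K * lm H ^ 11 := by
      calc (S.card : ℝ) ≤ 16 * ρ := h2
        _ ≤ 16 * 82 * lm H := by linarith
        _ ≤ K * lm H ^ 11 := mul_le_mul hK1 h3 hl0 hK0.le
    exact h4.trans (le_mul_of_one_le_right (by positivity) hY5)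
  · have hb : (S.card : ℝ) ≤ (25441 * (ρ : ℝ) ^ 5 * (L0 * lm H ^ 5 + 1) * (200000 * Y ^ 5)) * (16 * ρ) := by
      apply card_fibres S (fun m => m % (16 * ρ)) (by positivity)
      · intro y
        set Sy := S.filter (fun m => m % (16 * ρ) = y) with hSy
        have hsub : Sy ⊆ S := Finset.filter_subset _ _
        refine le_trans (Fam.total (B1 := 200000 * Y ^ 5) hH1 f3 f1 (hChL H hH) (F.sub hsub) ?_) ?_
        · intro T hT hc
          rw [hYd, hσ]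
          refine combed hC hA hR hH1 f3 f1 (F.sub (hT.trans hsub)) hM (fun m hm => ?_) (fun m hm n hn hmn => ?_)
            (by rw [← hσ]; exact hge) hc
          · have := hS m (hsub (hT hm))
            exact ⟨this.1, this.2.1⟩
          · have g1 := (Finset.mem_filter.mp (hT hm)).2
            have g2 := (Finset.mem_filter.mp (hT hn)).2
            have g3 : m + 16 * ρ ≤ n := by
              have g4 : m % (16 * ρ) = n % (16 * ρ) := by rw [g1, g2]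
              have g5 := Nat.div_add_mod m (16 * ρ)
              have g6 := Nat.div_add_mod n (16 * ρ)
              have g7 : m / (16 * ρ) < n / (16 * ρ) := by
                by_contra hcon
                push Not at hcon
                have := Nat.mul_le_mul_left (16 * ρ) hcon
                omega
              have g8 := Nat.mul_le_mul_left (16 * ρ) (Nat.succ_le_of_lt g7)
              rw [Nat.succ_eq_add_one, mul_add, mul_one] at g8
              omega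
            have g4 := lev g c hmn.le
            have g5 : (m : ℝ) + 16 * ρ ≤ n := by exact_mod_cast g3
            linarith
        · exact total_le hρ2 (by positivity) (by linarith)
      · have h1 : S.image (fun m => m % (16 * ρ)) ⊆ Finset.range (16 * ρ) := by
          intro y hy
          obtain ⟨m, hm, rfl⟩ := Finset.mem_image.mp hy
          exact Finset.mem_range.mpr (Nat.mod_lt _ (by omega))
        have h2 := Finset.card_le_card h1
        rw [Finset.card_range] at h2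
        exact_mod_cast h2
    refine hb.trans ?_
    have g1 : (ρ : ℝ) ^ 6 ≤ (82 * lm H) ^ 6 := pow_le_pow_left₀ hρ0 f4 6
    have g2 : L0 * lm H ^ 5 + 1 ≤ (L0 + 1) * lm H ^ 5 := by
      have : (1 : ℝ) ≤ lm H ^ 5 := one_le_pow₀ hl1
      linarith
    calc (25441 * (ρ : ℝ) ^ 5 * (L0 * lm H ^ 5 + 1) * (200000 * Y ^ 5)) * (16 * ρ)
        = 16 * 25441 * 200000 * (ρ : ℝ) ^ 6 * (L0 * lm H ^ 5 + 1) * Y ^ 5 := by ring
      _ ≤ 16 * 25441 * 200000 * (82 * lm H) ^ 6 * ((L0 + 1) * lm H ^ 5) * Y ^ 5 := by gcongr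
      _ = K * lm H ^ 11 * Y ^ 5 := by rw [hK]; ring

end

end Pool.Agent.N576.MX
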