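import Mathlib
import Pool.Agent.N576.MX.Defs

set_option autoImplicit false

namespace Pool.Agent.N576.MX

open Pool.Agent.H499R2 Pool.Agent.TH880.MK Pool.Agent.N576.MK

theorem uniq0 : UNIQ := by
  intro l l' hc hab
  apply Ph_inj'
  unfold Ph
  rw [hc]
  rcases hab with ⟨h1, h2⟩ | ⟨h1, h2⟩
  · rw [h1, h2]
  · rw [h1, h2, min_comm, max_comm]

end Pool.Agent.N576.MX
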