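import Mathlib
import Pool.Agent.N576.MX.Defs
import Pool.Agent.N576.MK.B4

set_option autoImplicit false

/-!
# From words to triples
-/

namespace Pool.Agent.N576.MX

open Pool.Agent.H499R2 Pool.Agent.TH880.MK Pool.Agent.N576.MK

noncomputable section

theorem main_of (h1 : LIGHT) (h2 : HEAVY) : MAIN := by
  classical
  obtain ⟨C1, hC1, h1⟩ := h1
  obtain ⟨C2, hC2, h2⟩ := h2
  refine ⟨C1 + C2, by positivity, fun H Z hH hZ => ?_⟩
  have e1 := h1 H (Z.filter (fun l => Lt (tau H) l)) hH (fun l hl =>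
    ⟨hZ l (Finset.mem_filter.mp hl).1, (Finset.mem_filter.mp hl).2⟩)
  have e2 := h2 H (Z.filter (fun l => ¬ Lt (tau H) l)) hH (fun l hl =>
    ⟨hZ l (Finset.mem_filter.mp hl).1, (Finset.mem_filter.mp hl).2⟩)
  have e3 : Z.card = (Z.filter (fun l => Lt (tau H) l)).card + (Z.filter (fun l => ¬ Lt (tau H) l)).card :=
    (Finset.card_filter_add_card_filter_not _).symm
  rw [e3]
  push_cast
  linarith

/-- the number of triples which violate uniqueness -/
theorem bad_le (h : MAIN) : ∃ C : ℝ, 0 < C ∧ ∀ N : ℕ, 3 ≤ N →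
    ((ST N N).ncard : ℝ) ≤ C * (Real.log N) ^ (199 / 200 : ℝ) := by
  classical
  obtain ⟨C, hC, h⟩ := h
  refine ⟨C * 4 ^ (199 / 200 : ℝ), by positivity, fun N hN => ?_⟩
  obtain ⟨l1, l2, l3, l4⟩ := log_facts hN
  have hfin : (ST N N).Finite := (AT_finite N N).subset fun t ht => ⟨ht.1, ht.2.1, ht.2.2.1⟩
  have hch : ∀ t ∈ ST N N, ∃ l, Ph (desc root l) = ((t.1 : ℤ), (t.2.1 : ℤ), (t.2.2 : ℤ)) ∧
      Exc ⌊2 * Real.log (3 * N)⌋₊ l := by
    rintro ⟨a, b, m⟩ ⟨h1, h2, h3, a', b', h4, h5⟩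
    simp only at h1 h2 h3 h4 h5 ⊢
    have hex : Ex m := by
      refine ⟨(a, b), (a', b'), h4.symm, ?_, ?_⟩
      · exact ⟨h1.1, h1.2.1, h1.2.2.1, h1.2.2.2⟩
      · exact ⟨h5.1, h5.2.1, h5.2.2.1, h5.2.2.2⟩
    have hm5 := Ex_five hex (by have := h1.1; have := h1.2.1; have := h1.2.2.1; omega)
    obtain ⟨l, hl⟩ := MT_word h1 hm5
    obtain ⟨l', hl'⟩ := MT_word h5 hm5
    have hc : (desc root l).c = m := congrArg (fun z => z.2.2) hl
    have hc' : (desc root l').c = m := congrArg (fun z => z.2.2) hl'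
    refine ⟨l, hl, sz_of_c hN (by rw [hc]; exact_mod_cast h3), l', sz_of_c hN (by rw [hc']; exact_mod_cast h3), ?_,
      FF_of_c (by rw [hc, hc'])⟩
    rintro rfl
    rw [hl] at hl'
    simp only [Prod.mk.injEq, Nat.cast_inj] at hl'
    exact h4 (Prod.ext hl'.1.symm hl'.2.1.symm)
  choose! f hf1 hf2 using hch
  have hinj : Set.InjOn f (hfin.toFinset : Set (ℕ × ℕ × ℕ)) := by
    intro t ht t' ht' he
    rw [Set.Finite.coe_toFinset] at ht ht'
    have e1 := hf1 t ht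
    have e2 := hf1 t' ht'
    rw [he, e2] at e1
    simp only [Prod.mk.injEq, Nat.cast_inj] at e1
    exact Prod.ext e1.1.symm (Prod.ext e1.2.1.symm e1.2.2.symm)
  have key := h ⌊2 * Real.log (3 * N)⌋₊ (hfin.toFinset.image f) l3 (by
    intro l hl
    obtain ⟨t, ht, rfl⟩ := Finset.mem_image.mp hl
    rw [Set.Finite.mem_toFinset] at ht
    exact hf2 t ht)
  rw [Finset.card_image_of_injOn hinj] at key
  rw [Set.ncard_eq_toFinset_card _ hfin]
  refine key.trans ?_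
  have h5 : ((⌊2 * Real.log (3 * N)⌋₊ : ℕ) : ℝ) ^ (199 / 200 : ℝ) ≤ 4 ^ (199 / 200 : ℝ) * (Real.log N) ^ (199 / 200 : ℝ) := by
    rw [← Real.mul_rpow (by norm_num) (by linarith)]
    exact Real.rpow_le_rpow (Nat.cast_nonneg _) l4 (by norm_num)
  calc C * ((⌊2 * Real.log (3 * N)⌋₊ : ℕ) : ℝ) ^ (199 / 200 : ℝ)
      ≤ C * (4 ^ (199 / 200 : ℝ) * (Real.log N) ^ (199 / 200 : ℝ)) := mul_le_mul_of_nonneg_left h5 hC.le
    _ = _ := by ring

lemma exN_le_bad (N : ℕ) : exN N ≤ (ST N N).ncard := by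
  classical
  have hfin : (ST N N).Finite := (AT_finite N N).subset fun t ht => ⟨ht.1, ht.2.1, ht.2.2.1⟩
  rw [Set.ncard_eq_toFinset_card _ hfin]
  unfold exN
  have hsub : (Finset.Icc 1 N).filter Ex ⊆ hfin.toFinset.image (fun t => t.2.2) := by
    intro m hm
    obtain ⟨h1, h2⟩ := Finset.mem_filter.mp hm
    rw [Finset.mem_Icc] at h1
    obtain ⟨p, q, hne, h3, h4⟩ := h2
    rw [Finset.mem_image]
    refine ⟨(p.1, p.2, m), ?_, rfl⟩
    rw [Set.Finite.mem_toFinset]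
    refine ⟨⟨h3.1, h3.2.1, h3.2.2.1, h3.2.2.2⟩, ?_, h1.2, q.1, q.2, ?_, ⟨h4.1, h4.2.1, h4.2.2.1, h4.2.2.2⟩⟩
    · show p.1 ≤ N
      have := h3.2.1
      have := h3.2.2.1
      omega
    · intro h
      exact hne (Prod.ext (congrArg Prod.fst h).symm (congrArg Prod.snd h).symm)
  exact (Finset.card_le_card hsub).trans Finset.card_image_le

end

end Pool.Agent.N576.MX
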