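import Mathlib
import Pool.Agent.N576.MX.K6
import Pool.Agent.N576.MX.K7
import Pool.Agent.N576.MX.Uniq0
import Pool.Agent.N568.MX.MX_AFF
import Pool.Agent.N767.MX_RUNX
import Pool.Agent.N681.MX.Core
import Pool.Agent.N163.MX_LIGHTCLS
import Pool.Agent.N878.MX_LIGHT
import Pool.Agent.N835.MX_RSTART
import Pool.Agent.N136.MX_HEAVY
import Pool.Agent.N615.MX_RUNREP
import Pool.Agent.N615.MX_EPREP

set_option autoImplicit false

/-!
# The main theorem on words
-/

namespace Pool.Agent.N576.MX

theorem core : CORE := Pool.Agent.N681.MX.core_of Pool.Agent.N615.MXR.runrep Pool.Agent.N615.MX.eprep uniq0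

theorem pr : PR := pr_of core Pool.Agent.N568.MX.aff Pool.Agent.N767.MX.runx

theorem heavy : HEAVY := Pool.Agent.N136.MXH.heavy_of pr Pool.Agent.N835.MXR.rstart

theorem light : LIGHT := Pool.Agent.N878.MX.light_of Pool.Agent.N163.MX.lightcls

theorem main : MAIN := main_of light heavy

end Pool.Agent.N576.MX
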