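import Mathlib
import Pool.Agent.N576.MX.K8
import Pool.Agent.H609R3.NM.Fin

set_option autoImplicit false

/-!
# The distinct Markoff numbers
-/

namespace Pool.Agent.N576.MX

open Filter Asymptotics Pool.Agent.H499R2 Pool.Agent.N576.MK Pool.Agent.H609R3.NM

noncomputable section

/-- the excess of the number of triples over the number of numbers -/
lemma excess_bad (N : ℕ) : tri N ≤ mkN N + (ST N N).ncard := by
  classical
  have hfin : (ST N N).Finite := (AT_finite N N).subset fun t ht => ⟨ht.1, ht.2.1, ht.2.2.1⟩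
  rw [Set.ncard_eq_toFinset_card _ hfin]
  unfold Pool.Agent.H609R3.NM.tri mkN
  rw [← Finset.card_filter_add_card_filter_not (s := (Finset.Icc 1 N ×ˢ Finset.Icc 1 N ×ˢ Finset.Icc 1 N).filter
    (fun p : ℕ × ℕ × ℕ => p.1 ≤ p.2.1 ∧ p.2.1 ≤ p.2.2 ∧
        p.1 ^ 2 + p.2.1 ^ 2 + p.2.2 ^ 2 = 3 * p.1 * p.2.1 * p.2.2)) (fun t => ¬ t ∈ ST N N)]
  have hmem : ∀ t ∈ (Finset.Icc 1 N ×ˢ Finset.Icc 1 N ×ˢ Finset.Icc 1 N).filter
    (fun p : ℕ × ℕ × ℕ => p.1 ≤ p.2.1 ∧ p.2.1 ≤ p.2.2 ∧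
        p.1 ^ 2 + p.2.1 ^ 2 + p.2.2 ^ 2 = 3 * p.1 * p.2.1 * p.2.2),
      Pool.Agent.N576.MK.MT t.1 t.2.1 t.2.2 ∧ t.1 ≤ N ∧ t.2.2 ≤ N := by
    rintro ⟨a, b, m⟩ ht
    simp only [Finset.mem_filter, Finset.mem_product, Finset.mem_Icc] at ht
    exact ⟨⟨ht.1.1.1, ht.2.1, ht.2.2.1, ht.2.2.2⟩, ht.1.1.2, ht.1.2.2.2⟩
  apply Nat.add_le_add
  · apply Finset.card_le_card_of_injOn (fun t => t.2.2)
    · intro t ht
      obtain ⟨h1, h2⟩ := Finset.mem_filter.mp (Finset.mem_coe.mp ht)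
      obtain ⟨h3, h4, h5⟩ := hmem t h1
      have e1 := h3.1
      have e2 := h3.2.1
      have e3 := h3.2.2.1
      have e4 : 1 ≤ t.2.2 := e1.trans (e2.trans e3)
      show t.2.2 ∈ ((((Finset.Icc 1 N).filter Mk : Finset ℕ)) : Set ℕ)
      rw [Finset.mem_coe, Finset.mem_filter, Finset.mem_Icc]
      exact ⟨⟨e4, h5⟩, t.1, t.2.1, e1, e1.trans e2, h3.2.2.2⟩
    · intro t ht t' ht' he
      obtain ⟨h1, h2⟩ := Finset.mem_filter.mp (Finset.mem_coe.mp ht)
      obtain ⟨h1', h2'⟩ := Finset.mem_filter.mp (Finset.mem_coe.mp ht')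
      obtain ⟨h3, h4, h5⟩ := hmem t h1
      obtain ⟨h3', h4', h5'⟩ := hmem t' h1'
      have he' : t.2.2 = t'.2.2 := he
      by_contra hne
      apply h2
      refine ⟨h3, h4, h5, t'.1, t'.2.1, ?_, by rw [he']; exact h3'⟩
      intro h
      apply hne
      have e1 : t'.1 = t.1 := congrArg (fun z : ℕ × ℕ => z.1) h
      have e2 : t'.2.1 = t.2.1 := congrArg (fun z : ℕ × ℕ => z.2) h
      exact Prod.ext e1.symm (Prod.ext e2.symm he')
  · apply Finset.card_le_card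
    intro t ht
    obtain ⟨h1, h2⟩ := Finset.mem_filter.mp ht
    rw [Set.Finite.mem_toFinset]
    exact not_not.mp h2

theorem excess_main : ∃ C : ℝ, 0 < C ∧ ∀ N : ℕ, 3 ≤ N →
    (tri N : ℝ) - mkN N ≤ C * (Real.log N) ^ (199 / 200 : ℝ) := by
  obtain ⟨C, hC, h⟩ := bad_le main
  refine ⟨C, hC, fun N hN => ?_⟩
  have h1 := h N hN
  have h2 : (tri N : ℝ) ≤ mkN N + (ST N N).ncard := by exact_mod_cast excess_bad N
  linarith

theorem excess_small : (fun N : ℕ => (tri N : ℝ) - mkN N) =o[atTop] (fun N : ℕ => Real.log N) := by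
  obtain ⟨C, hC, h⟩ := excess_main
  have h5 : Tendsto (fun N : ℕ => Real.log (N : ℝ)) atTop atTop :=
    Real.tendsto_log_atTop.comp tendsto_natCast_atTop_atTop
  have h1 : (fun N : ℕ => (tri N : ℝ) - mkN N) =O[atTop] (fun N : ℕ => (Real.log N) ^ (199 / 200 : ℝ)) := by
    apply IsBigO.of_bound C
    filter_upwards [eventually_ge_atTop 3, h5.eventually_ge_atTop 0] with N hN hl
    have h2 : (mkN N : ℝ) ≤ tri N := by exact_mod_cast mkN_le_tri N
    rw [Real.norm_eq_abs, Real.norm_eq_abs, abs_of_nonneg (by linarith), abs_of_nonneg (Real.rpow_nonneg hl _)]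
    exact h N hN
  have h4 : (fun N : ℕ => (Real.log N) ^ (199 / 200 : ℝ)) =o[atTop] (fun N : ℕ => Real.log N) := by
    have h2 : Tendsto (fun N : ℕ => (Real.log N) ^ (-(1 / 200) : ℝ)) atTop (nhds 0) :=
      (tendsto_rpow_neg_atTop (by norm_num : (0 : ℝ) < 1 / 200)).comp h5
    have h3 : (fun N : ℕ => (Real.log N) ^ (-(1 / 200) : ℝ) * Real.log N) =o[atTop] (fun N : ℕ => 1 * Real.log N) := by
      apply IsLittleO.mul_isBigO _ (isBigO_refl _ _)
      exact (isLittleO_one_iff ℝ).2 h2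
    refine h3.congr' ?_ ?_
    · filter_upwards [h5.eventually_gt_atTop 0] with N hN
      rw [← Real.rpow_add_one hN.ne']
      norm_num
    · filter_upwards with N
      rw [one_mul]
  exact h1.trans_isLittleO h4

/-- **The size of the distinct Markoff numbers.** -/
theorem mk_asymp : ∃ c : ℝ, 0 < c ∧ Tendsto (fun N : ℕ => (tri N : ℝ) / Real.log N ^ 2) atTop (nhds c) ∧
    Tendsto (fun n : ℕ => (mk n : ℝ) / Real.exp (Real.sqrt n / Real.sqrt c)) atTop (nhds (1 / 3)) := by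
  obtain ⟨c, hc, h⟩ := tri_asymp
  have hR := R_small h
  have hE : ∀ᶠ n in atTop, 0 ≤ E n := Eventually.of_forall E_nonneg
  have hb := basic c
  refine ⟨c, hc, tri_limit h, ?_⟩
  have ht : Tendsto (fun n : ℕ => L n - Real.sqrt (n / c)) atTop (nhds 0) := by
    rw [equiv hc L_tendsto hR hb, E_iff]
    exact excess_small
  have e1 : (fun n : ℕ => (mk n : ℝ) / Real.exp (Real.sqrt n / Real.sqrt c)) =
      fun n : ℕ => 1 / 3 * Real.exp (L n - Real.sqrt (n / c)) := by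
    funext n
    rw [ratio_eq hc]
  rw [e1]
  have h2 := (Real.continuous_exp.tendsto 0).comp ht
  rw [Real.exp_zero] at h2
  have h3 := h2.const_mul (1 / 3 : ℝ)
  rw [mul_one] at h3
  exact h3

end

end Pool.Agent.N576.MX
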